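import Mathlib

/-!
# A good line in a quadric: linear algebra
-/

set_option autoImplicit false

namespace Pool.Agent.Helper97.DC.Lin

open Module

universe u v

variable {k : Type u} [Field k] {V : Type v} [AddCommGroup V] [Module k V]

/-- A linear form which vanishes on the kernel of another one is a multiple of it. -/
theorem mult_of_ker {f g : V →ₗ[k] k} (h : ∀ v, f v = 0 → g v = 0) : ∃ c : k, ∀ v, g v = c * f v := by
  by_cases h0 : ∃ v, f v ≠ 0
  · obtain ⟨v0, hv0⟩ := h0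
    refine ⟨g v0 / f v0, fun v => ?_⟩
    have h1 := h (v - (f v / f v0) • v0) (by
      rw [map_sub, map_smul, smul_eq_mul, div_mul_cancel₀ _ hv0, sub_self])
    rw [map_sub, map_smul, smul_eq_mul] at h1
    field_simp
    field_simp at h1
    linear_combination h1
  · push Not at h0
    exact ⟨0, fun v => by rw [h v (h0 v), zero_mul]⟩

/-- Common zeros of linear forms. -/
theorem exists_ker [FiniteDimensional k V] {m : ℕ} (f : Fin m → V →ₗ[k] k) (hm : m < finrank k V) :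
    ∃ v, v ≠ 0 ∧ ∀ i, f i v = 0 := by
  have h := LinearMap.ker_ne_bot_of_finrank_lt (f := LinearMap.pi f) (by simpa using hm)
  obtain ⟨v, hv, hv0⟩ := Submodule.exists_mem_ne_zero_of_ne_bot h
  refine ⟨v, hv0, fun i => ?_⟩
  rw [LinearMap.mem_ker] at hv
  exact congrFun hv i

/-- A quadratic form and its polar form. -/
structure QB (Q : V → k) (B : V →ₗ[k] V →ₗ[k] k) : Prop where
  symm : ∀ x y, B x y = B y x
  add : ∀ x y, Q (x + y) = Q x + Q y + B x y
  smul : ∀ (c : k) x, Q (c • x) = c ^ 2 * Q x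
  nd : ∀ x, (∀ v, B x v = 0) → x = 0

variable {Q : V → k} {B : V →ₗ[k] V →ₗ[k] k}

theorem QB.self (h : QB Q B) (x : V) : B x x = 2 * Q x := by
  have h1 := h.add x x
  have h2 := h.smul 2 x
  rw [two_smul] at h2
  rw [h2] at h1
  linear_combination -h1

/-- A linear form which vanishes at the isotropic tangent vectors vanishes at the tangent vectors. -/
theorem span_isotropic [IsAlgClosed k] [FiniteDimensional k V] (h : QB Q B) (h2 : (2 : k) ≠ 0)
    (hd : 4 ≤ finrank k V) {x : V} (hx : x ≠ 0) (G : V →ₗ[k] k)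
    (hG : ∀ v, Q v = 0 → B x v = 0 → G v = 0) : ∃ c : k, ∀ v, G v = c * B x v := by
  refine mult_of_ker (f := B x) (g := G) fun v0 hv0 => ?_
  by_contra hne
  -- a linear form which is not zero at `x`
  obtain ⟨z, hz⟩ : ∃ z, B x z ≠ 0 := by
    by_contra hcon
    push Not at hcon
    exact hx (h.nd x hcon)
  obtain ⟨w, hw0, hw⟩ := exists_ker (V := V) ![B x, G, B z] (by omega)
  have hw1 : B x w = 0 := hw 0
  have hw2 : G w = 0 := hw 1
  have hw3 : B z w = 0 := hw 2
  -- the vectors of the hyperplane of `ker B x`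
  have key : ∀ y, B x y = 0 → G y = 0 → Q y = 0 ∧ B v0 y = 0 := by
    intro y hy1 hy2
    have hno : ∀ t : k, Q v0 + t * B v0 y + t ^ 2 * Q y ≠ 0 := by
      intro t ht
      apply hne
      have h3 : Q (v0 + t • y) = 0 := by
        rw [h.add, h.smul, map_smul, smul_eq_mul]
        linear_combination ht
      have h4 := hG (v0 + t • y) h3 (by rw [map_add, map_smul, hv0, hy1]; simp)
      rw [map_add, map_smul, hy2] at h4
      simpa using h4
    have hQv0 : Q v0 ≠ 0 := by simpa using hno 0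
    have hQy : Q y = 0 := by
      by_contra hQ
      have hdeg : (Polynomial.C (Q y) * Polynomial.X ^ 2 + Polynomial.C (B v0 y) * Polynomial.X +
          Polynomial.C (Q v0)).degree = 2 := Polynomial.degree_quadratic hQ
      obtain ⟨t, ht⟩ := IsAlgClosed.exists_root _ (by rw [hdeg]; norm_num)
      apply hno t
      simp only [Polynomial.IsRoot.def, Polynomial.eval_add, Polynomial.eval_mul,
        Polynomial.eval_C, Polynomial.eval_pow, Polynomial.eval_X] at ht
      linear_combination ht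
    refine ⟨hQy, ?_⟩
    by_contra hB
    apply hno (-(Q v0) / B v0 y)
    rw [hQy]
    field_simp
    ring
  -- `w` is orthogonal to the tangent space
  have hwo : ∀ y, B x y = 0 → B w y = 0 := by
    intro y hy
    obtain ⟨a1, a2⟩ := key w hw1 hw2
    -- `y = (G y / G v0) v0 + y'`
    have hy1 : B x (y - (G y / G v0) • v0) = 0 := by rw [map_sub, map_smul, hy, hv0]; simp
    have hy2 : G (y - (G y / G v0) • v0) = 0 := by
      rw [map_sub, map_smul, smul_eq_mul, div_mul_cancel₀ _ hne, sub_self]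
    obtain ⟨b1, b2⟩ := key _ hy1 hy2
    obtain ⟨c1, c2⟩ := key (w + (y - (G y / G v0) • v0)) (by rw [map_add, hw1, hy1, add_zero])
      (by rw [map_add, hw2, hy2, add_zero])
    have h5 := h.add w (y - (G y / G v0) • v0)
    rw [c1, a1, b1, map_sub, map_smul, h.symm w v0, a2] at h5
    simpa using h5.symm
  obtain ⟨c, hc⟩ := mult_of_ker (f := B x) (g := B w) hwo
  have hwx : w = c • x := by
    have := h.nd (w - c • x) (fun v => by
      rw [map_sub, map_smul, LinearMap.sub_apply, LinearMap.smul_apply, hc, smul_eq_mul, sub_self])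
    exact sub_eq_zero.1 this
  rw [hwx, map_smul, smul_eq_mul, h.symm z x] at hw3
  rcases mul_eq_zero.1 hw3 with h6 | h6
  · exact hw0 (by rw [hwx, h6, zero_smul])
  · exact hz h6

/-- Independent vectors have independent polar forms. -/
theorem exists_dual (h : QB Q B) {p θ : V} (hi : ∀ c : k, p ≠ c • θ) :
    ∃ v, B p v = 1 ∧ B θ v = 0 := by
  by_contra hcon
  push Not at hcon
  have h1 : ∀ v, B θ v = 0 → B p v = 0 := by
    intro v hv
    by_contra hne
    refine hcon ((B p v)⁻¹ • v) ?_ ?_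
    · rw [map_smul, smul_eq_mul, inv_mul_cancel₀ hne]
    · rw [map_smul, hv, smul_zero]
  obtain ⟨c, hc⟩ := mult_of_ker h1
  apply hi c
  have := h.nd (p - c • θ) (fun v => by
    rw [map_sub, map_smul, LinearMap.sub_apply, LinearMap.smul_apply, hc, smul_eq_mul, sub_self])
  exact sub_eq_zero.1 this

/-- Scaling to the value one. -/
theorem exists_unit [IsAlgClosed k] (h : QB Q B) {u : V} (hu : Q u ≠ 0) : ∃ c : k, c ≠ 0 ∧ Q (c • u) = 1 := by
  obtain ⟨c, hc⟩ := IsAlgClosed.exists_pow_nat_eq (Q u)⁻¹ (n := 2) (by norm_num)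
  refine ⟨c, ?_, ?_⟩
  · rintro rfl
    rw [zero_pow (by norm_num)] at hc
    exact inv_ne_zero hu hc.symm
  · rw [h.smul, hc, inv_mul_cancel₀ hu]

theorem frame [IsAlgClosed k] [FiniteDimensional k V] (h : QB Q B) (h2 : (2 : k) ≠ 0)
    (hd : 5 ≤ finrank k V) {p θ : V} (hp : Q p = 0) (hθ : Q θ = 0) (hpθ : B p θ = 0)
    (hi : ∀ c : k, p ≠ c • θ) (hi' : ∀ c : k, θ ≠ c • p) (G : V →ₗ[k] k) (hGp : G p = 0)
    (hGθ : G θ = 0) (hG : ¬ ∃ c : k, ∀ v, G v = c * B p v) :
    ∃ p' θ' u : V, Q p' = 0 ∧ Q θ' = 0 ∧ Q u = 1 ∧ B p p' = 1 ∧ B p θ' = 0 ∧ B p u = 0 ∧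
      B θ p' = 0 ∧ B θ θ' = 1 ∧ B θ u = 0 ∧ B p' θ' = 0 ∧ B p' u = 0 ∧ B θ' u = 0 ∧
      (G θ' ≠ 0 ∨ G u ≠ 0) := by
  have hpp : B p p = 0 := by rw [h.self, hp, mul_zero]
  have hθθ : B θ θ = 0 := by rw [h.self, hθ, mul_zero]
  have hθp : B θ p = 0 := by rw [h.symm, hpθ]
  -- `p'`
  obtain ⟨v1, a1, a2⟩ := exists_dual h hi
  obtain ⟨p', hp'⟩ : ∃ p', p' = v1 - Q v1 • p := ⟨_, rfl⟩
  have b1 : Q p' = 0 := by
    rw [hp', sub_eq_add_neg, ← neg_smul, h.add, h.smul, map_smul, h.symm v1 p, a1, hp, smul_eq_mul]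
    ring
  have b2 : B p p' = 1 := by rw [hp', map_sub, map_smul, a1, hpp, smul_zero, sub_zero]
  have b3 : B θ p' = 0 := by rw [hp', map_sub, map_smul, a2, hθp, smul_zero, sub_zero]
  have b4 : B p' p' = 0 := by rw [h.self, b1, mul_zero]
  -- `θ'`
  obtain ⟨v2, c1, c2⟩ := exists_dual h hi'
  obtain ⟨v3, hv3⟩ : ∃ v3, v3 = v2 - B p' v2 • p := ⟨_, rfl⟩
  have d1 : B p v3 = 0 := by rw [hv3, map_sub, map_smul, c2, hpp, smul_zero, sub_zero]
  have d2 : B θ v3 = 1 := by rw [hv3, map_sub, map_smul, c1, hθp, smul_zero, sub_zero]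
  have d3 : B p' v3 = 0 := by
    rw [hv3, map_sub, map_smul, h.symm p' p, b2, smul_eq_mul, mul_one, sub_self]
  obtain ⟨θ', hθ'⟩ : ∃ θ', θ' = v3 - Q v3 • θ := ⟨_, rfl⟩
  have e1 : Q θ' = 0 := by
    rw [hθ', sub_eq_add_neg, ← neg_smul, h.add, h.smul, map_smul, h.symm v3 θ, d2, hθ, smul_eq_mul]
    ring
  have e2 : B p θ' = 0 := by rw [hθ', map_sub, map_smul, d1, hpθ, smul_zero, sub_zero]
  have e3 : B θ θ' = 1 := by rw [hθ', map_sub, map_smul, d2, hθθ, smul_zero, sub_zero]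
  have e4 : B p' θ' = 0 := by rw [hθ', map_sub, map_smul, d3, h.symm p' θ, b3, smul_zero, sub_zero]
  have e5 : B θ' θ' = 0 := by rw [h.self, e1, mul_zero]
  -- the orthogonal space
  obtain ⟨P, hP⟩ : ∃ P : V → V, P = fun v => v - B p' v • p - B p v • p' - B θ' v • θ - B θ v • θ' :=
    ⟨_, rfl⟩
  have hPv : ∀ v, P v = v - B p' v • p - B p v • p' - B θ' v • θ - B θ v • θ' := fun v => by rw [hP]
  have s1 : B p' p = 1 := by rw [h.symm, b2]
  have s2 : B p' θ = 0 := by rw [h.symm, b3]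
  have s3 : B θ' p = 0 := by rw [h.symm, e2]
  have s4 : B θ' θ = 1 := by rw [h.symm, e3]
  have s5 : B θ' p' = 0 := by rw [h.symm, e4]
  have f1 : ∀ v, B p (P v) = 0 := fun v => by
    rw [hPv]; simp only [map_sub, map_smul, smul_eq_mul, hpp, b2, hpθ, e2]; ring
  have f2 : ∀ v, B θ (P v) = 0 := fun v => by
    rw [hPv]; simp only [map_sub, map_smul, smul_eq_mul, hθp, b3, hθθ, e3]; ring
  have f3 : ∀ v, B p' (P v) = 0 := fun v => by
    rw [hPv]; simp only [map_sub, map_smul, smul_eq_mul, s1, b4, s2, e4]; ring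
  have f4 : ∀ v, B θ' (P v) = 0 := fun v => by
    rw [hPv]; simp only [map_sub, map_smul, smul_eq_mul, s3, s5, s4, e5]; ring
  -- a vector of the orthogonal space with `Q ≠ 0`
  obtain ⟨u1, g1, g2, g3, g4, g5⟩ : ∃ u1, B p u1 = 0 ∧ B θ u1 = 0 ∧ B p' u1 = 0 ∧ B θ' u1 = 0 ∧
      Q u1 ≠ 0 := by
    by_contra hcon
    push Not at hcon
    obtain ⟨w, hw0, hw⟩ := exists_ker (V := V) ![B p, B θ, B p', B θ'] (by omega)
    have w1 : B p w = 0 := hw 0
    have w2 : B θ w = 0 := hw 1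
    have w3 : B p' w = 0 := hw 2
    have w4 : B θ' w = 0 := hw 3
    apply hw0
    apply h.nd
    intro v
    have h5 := h.add w (P v)
    rw [hcon _ (by rw [map_add, w1, f1, add_zero]) (by rw [map_add, w2, f2, add_zero])
      (by rw [map_add, w3, f3, add_zero]) (by rw [map_add, w4, f4, add_zero]),
      hcon w w1 w2 w3 w4, hcon _ (f1 v) (f2 v) (f3 v) (f4 v)] at h5
    have h6 : B w (P v) = 0 := by simpa using h5.symm
    rw [hPv] at h6
    simp only [map_sub, map_smul, smul_eq_mul, h.symm w p, h.symm w p', h.symm w θ,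
      h.symm w θ', w1, w2, w3, w4] at h6
    linear_combination h6
  have fin : ∀ u0, B p u0 = 0 → B θ u0 = 0 → B p' u0 = 0 → B θ' u0 = 0 → Q u0 ≠ 0 →
      (G θ' ≠ 0 ∨ G u0 ≠ 0) → ∃ p' θ' u : V, Q p' = 0 ∧ Q θ' = 0 ∧ Q u = 1 ∧ B p p' = 1 ∧
      B p θ' = 0 ∧ B p u = 0 ∧ B θ p' = 0 ∧ B θ θ' = 1 ∧ B θ u = 0 ∧ B p' θ' = 0 ∧ B p' u = 0 ∧
      B θ' u = 0 ∧ (G θ' ≠ 0 ∨ G u ≠ 0) := by
    intro u0 k1 k2 k3 k4 k5 k6
    obtain ⟨c, hc0, hc⟩ := exists_unit h k5
    refine ⟨p', θ', c • u0, b1, e1, hc, b2, e2, ?_, b3, e3, ?_, e4, ?_, ?_, ?_⟩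
    · rw [map_smul, k1, smul_zero]
    · rw [map_smul, k2, smul_zero]
    · rw [map_smul, k3, smul_zero]
    · rw [map_smul, k4, smul_zero]
    · rcases k6 with k6 | k6
      · exact Or.inl k6
      · right
        rw [map_smul, smul_eq_mul]
        exact mul_ne_zero hc0 k6
  by_cases hGθ' : G θ' = 0
  · -- `G` is not zero on the orthogonal space
    obtain ⟨u0, k1, k2, k3, k4, k5⟩ : ∃ u0, B p u0 = 0 ∧ B θ u0 = 0 ∧ B p' u0 = 0 ∧ B θ' u0 = 0 ∧
        G u0 ≠ 0 := by
      by_contra hcon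
      push Not at hcon
      apply hG
      refine mult_of_ker fun v hv => ?_
      have h5 := hcon _ (f1 v) (f2 v) (f3 v) (f4 v)
      rw [hPv] at h5
      simp only [map_sub, map_smul, smul_eq_mul, hGp, hGθ, hGθ', hv] at h5
      linear_combination h5
    by_cases hQ0 : Q u0 = 0
    · by_cases hG1 : G u1 = 0
      · -- `u1 ± u0`
        have hc : ∃ c : k, c ≠ 0 ∧ Q u1 + c * B u1 u0 ≠ 0 := by
          by_contra hcon
          push Not at hcon
          have m1 := hcon 1 one_ne_zero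
          have m2 := hcon (-1) (neg_ne_zero.2 one_ne_zero)
          apply g5
          have : 2 * Q u1 = 0 := by linear_combination m1 + m2
          rcases mul_eq_zero.1 this with h7 | h7
          · exact absurd h7 h2
          · exact h7
        obtain ⟨c, hc0, hc⟩ := hc
        refine fin (u1 + c • u0) ?_ ?_ ?_ ?_ ?_ (Or.inr ?_)
        · rw [map_add, map_smul, g1, k1, smul_zero, add_zero]
        · rw [map_add, map_smul, g2, k2, smul_zero, add_zero]
        · rw [map_add, map_smul, g3, k3, smul_zero, add_zero]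
        · rw [map_add, map_smul, g4, k4, smul_zero, add_zero]
        · rw [h.add, h.smul, hQ0, map_smul, smul_eq_mul, mul_zero, add_zero]
          exact hc
        · rw [map_add, map_smul, hG1, zero_add, smul_eq_mul]
          exact mul_ne_zero hc0 k5
      · exact fin u1 g1 g2 g3 g4 g5 (Or.inr hG1)
    · exact fin u0 k1 k2 k3 k4 hQ0 (Or.inr k5)
  · exact fin u1 g1 g2 g3 g4 g5 (Or.inl hGθ')

end Pool.Agent.Helper97.DC.Lin
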