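import Pool.Agent.Helper97.SD.Basic
import Pool.Agent.Helper97.SD.Quadric
import Pool.Agent.Helper97.SD.Cone
import Pool.Agent.Helper97.DC.ChoiceLin
import Pool.Agent.Helper41.Eggert.Zero

/-!
# A good line in a quadric
-/

set_option autoImplicit false

namespace Pool.Agent.Helper97.DC

open MvPolynomial Pool.Agent.Helper97.SD

universe u

variable {k : Type u} [Field k] {n : ℕ}

/-- The polar form of a quadratic form. -/
noncomputable def pol (q : MvPolynomial (Fin (n + 1)) k) (x y : Fin (n + 1) → k) : k :=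
  aeval (x + y) q - aeval x q - aeval y q

/-- The gradient as a linear form. -/
noncomputable def gr (g : MvPolynomial (Fin (n + 1)) k) (x : Fin (n + 1) → k) :
    (Fin (n + 1) → k) →ₗ[k] k where
  toFun v := ∑ i, aeval x (pderiv i g) * v i
  map_add' v w := by
    rw [← Finset.sum_add_distrib]
    exact Finset.sum_congr rfl fun i _ => by rw [Pi.add_apply]; ring
  map_smul' c v := by
    rw [RingHom.id_apply, smul_eq_mul, Finset.mul_sum]
    exact Finset.sum_congr rfl fun i _ => by rw [Pi.smul_apply, smul_eq_mul]; ring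

theorem gr_apply (g : MvPolynomial (Fin (n + 1)) k) (x v : Fin (n + 1) → k) :
    gr g x v = ∑ i, aeval x (pderiv i g) * v i := rfl

theorem gr_eq (g : MvPolynomial (Fin (n + 1)) k) (x v : Fin (n + 1) → k) :
    gr g x v = T g 1 x v := (T_one g x v).symm

theorem gr_self {g : MvPolynomial (Fin (n + 1)) k} {d : ℕ} (hg : g.IsHomogeneous d)
    (x : Fin (n + 1) → k) : gr g x x = d * aeval x g := by
  have h := congrArg (aeval x) hg.sum_X_mul_pderiv
  rw [map_sum, nsmul_eq_mul, map_mul, map_natCast] at h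
  rw [← h, gr_apply]
  exact Finset.sum_congr rfl fun i _ => by rw [map_mul, aeval_X, mul_comm]

/-- The polar form as a bilinear form. -/
theorem exists_bil (h2 : (2 : k) ≠ 0) {q : MvPolynomial (Fin (n + 1)) k} (hq : q.IsHomogeneous 2)
    (hsm : ∀ x : Fin (n + 1) → k, x ≠ 0 → aeval x q = 0 → ∃ i, aeval x (pderiv i q) ≠ 0) :
    ∃ B : (Fin (n + 1) → k) →ₗ[k] (Fin (n + 1) → k) →ₗ[k] k,
      Lin.QB (fun x => aeval x q) B ∧ (∀ x v, B x v = pol q x v) ∧ (∀ x v, B x v = gr q x v) := by
  obtain ⟨m, hm⟩ := Qd.quad_matrix h2 hq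
  have hqv : ∀ x : Fin (n + 1) → k, aeval x q = ∑ i, ∑ j, m i j * (x i * x j) := by
    intro x
    rw [hm]
    simp [map_sum]
  obtain ⟨B, hB⟩ : ∃ B : (Fin (n + 1) → k) →ₗ[k] (Fin (n + 1) → k) →ₗ[k] k,
      ∀ x y, B x y = ∑ i, ∑ j, m i j * (x i * y j + y i * x j) := by
    refine ⟨LinearMap.mk₂ k (fun x y => ∑ i, ∑ j, m i j * (x i * y j + y i * x j)) ?_ ?_ ?_ ?_,
      fun x y => rfl⟩
    · intro x y z
      simp only [← Finset.sum_add_distrib, Pi.add_apply]
      exact Finset.sum_congr rfl fun i _ => Finset.sum_congr rfl fun j _ => by ring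
    · intro c x y
      simp only [smul_eq_mul, Finset.mul_sum, Pi.smul_apply]
      exact Finset.sum_congr rfl fun i _ => Finset.sum_congr rfl fun j _ => by ring
    · intro x y z
      simp only [← Finset.sum_add_distrib, Pi.add_apply]
      exact Finset.sum_congr rfl fun i _ => Finset.sum_congr rfl fun j _ => by ring
    · intro c x y
      simp only [smul_eq_mul, Finset.mul_sum, Pi.smul_apply]
      exact Finset.sum_congr rfl fun i _ => Finset.sum_congr rfl fun j _ => by ring
  have hadd : ∀ x y : Fin (n + 1) → k, aeval (x + y) q = aeval x q + aeval y q + B x y := by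
    intro x y
    rw [hqv, hqv, hqv, hB]
    simp only [← Finset.sum_add_distrib, Pi.add_apply]
    exact Finset.sum_congr rfl fun i _ => Finset.sum_congr rfl fun j _ => by ring
  have hgr : ∀ x v : Fin (n + 1) → k, B x v = gr q x v := by
    intro x v
    rw [gr_apply, hB]
    have h1 : ∀ l : Fin (n + 1), aeval x (pderiv l q) =
        ∑ i, ∑ j, m i j * ((if i = l then 1 else 0) * x j + x i * (if j = l then 1 else 0)) := by
      intro l
      rw [hm]
      simp only [map_sum, Derivation.leibniz, pderiv_C, pderiv_X, smul_eq_mul, map_add, map_mul,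
        aeval_X, aeval_C, mul_zero, add_zero, Algebra.algebraMap_self, RingHom.id_apply]
      refine Finset.sum_congr rfl fun i _ => Finset.sum_congr rfl fun j _ => ?_
      simp only [Pi.single_apply]
      split_ifs <;> simp_all
    have h3 : ∀ i j l : Fin (n + 1),
        m i j * ((if i = l then 1 else 0) * x j + x i * (if j = l then 1 else 0)) * v l =
        (if i = l then m i j * x j * v l else 0) + (if j = l then m i j * x i * v l else 0) := by
      intro i j l
      split_ifs <;> ring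
    have h4 : ∑ l, aeval x (pderiv l q) * v l = ∑ i, ∑ j, ∑ l,
        m i j * ((if i = l then 1 else 0) * x j + x i * (if j = l then 1 else 0)) * v l := by
      simp only [h1, Finset.sum_mul]
      rw [Finset.sum_comm]
      exact Finset.sum_congr rfl fun i _ => Finset.sum_comm
    rw [h4]
    refine Finset.sum_congr rfl fun i _ => Finset.sum_congr rfl fun j _ => ?_
    simp only [h3, Finset.sum_add_distrib, Finset.sum_ite_eq, Finset.mem_univ, if_true]
    ring
  refine ⟨B, ⟨?_, hadd, ?_, ?_⟩, ?_, hgr⟩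
  · intro x y
    rw [hB, hB]
    exact Finset.sum_congr rfl fun i _ => Finset.sum_congr rfl fun j _ => by ring
  · intro c x
    rw [hqv, hqv]
    simp only [Finset.mul_sum, Pi.smul_apply, smul_eq_mul]
    exact Finset.sum_congr rfl fun i _ => Finset.sum_congr rfl fun j _ => by ring
  · intro x hx
    by_contra hne
    have h1 : aeval x q = 0 := by
      have h3 := gr_self hq x
      rw [← hgr, hx] at h3
      rcases mul_eq_zero.1 h3.symm with h4 | h4
      · exact absurd h4 (by exact_mod_cast h2)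
      · exact h4
    obtain ⟨i, hi⟩ := hsm x hne h1
    apply hi
    have h3 := hx (Pi.single i 1)
    rw [hgr, gr_apply] at h3
    simpa [Pi.single_apply] using h3
  · intro x y
    rw [pol, hadd]
    ring

/-- The gradients are independent as linear forms. -/
theorem not_mult {q g : MvPolynomial (Fin (n + 1)) k} {x : Fin (n + 1) → k}
    (h : LinearIndependent k ![fun i => aeval x (pderiv i q), fun i => aeval x (pderiv i g)]) :
    ¬ ∃ c : k, ∀ v, gr g x v = c * gr q x v := by
  rintro ⟨c, hc⟩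
  rw [LinearIndependent.pair_iff] at h
  have h1 : c • (fun i => aeval x (pderiv i q)) + (-1 : k) • (fun i => aeval x (pderiv i g)) = 0 := by
    funext i
    have h2 := hc (Pi.single i 1)
    rw [gr_apply, gr_apply] at h2
    simp only [Pi.single_apply, mul_ite, mul_one, mul_zero, Finset.sum_ite_eq', Finset.mem_univ,
      if_true] at h2
    simp only [Pi.add_apply, Pi.smul_apply, smul_eq_mul, Pi.zero_apply, h2]
    ring
  have := (h c (-1) h1).2
  exact one_ne_zero (neg_eq_zero.1 this)

set_option maxHeartbeats 1000000 in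
open Classical in
theorem choice' [IsAlgClosed k] (h6 : (6 : k) ≠ 0) (hn : 4 ≤ n)
    {q g : MvPolynomial (Fin (n + 1)) k} (hq : q.IsHomogeneous 2) (hg : g.IsHomogeneous 4)
    (hsm : ∀ x : Fin (n + 1) → k, x ≠ 0 → aeval x q = 0 → ∃ i, aeval x (pderiv i q) ≠ 0)
    (hsm' : ∀ x : Fin (n + 1) → k, x ≠ 0 → aeval x q = 0 → aeval x g = 0 →
      LinearIndependent k ![fun i => aeval x (pderiv i q), fun i => aeval x (pderiv i g)]) :
    ∃ p θ p' θ' u : Fin (n + 1) → k, aeval p q = 0 ∧ aeval θ q = 0 ∧ aeval p' q = 0 ∧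
      aeval θ' q = 0 ∧ aeval u q = 1 ∧ pol q p θ = 0 ∧ pol q p p' = 1 ∧ pol q p θ' = 0 ∧
      pol q p u = 0 ∧ pol q θ p' = 0 ∧ pol q θ θ' = 1 ∧ pol q θ u = 0 ∧ pol q p' θ' = 0 ∧
      pol q p' u = 0 ∧ pol q θ' u = 0 ∧ aeval p g = 0 ∧ T g 1 p θ = 0 ∧ aeval θ g ≠ 0 ∧
      (T g 1 p θ' ≠ 0 ∨ T g 1 p u ≠ 0) := by
  have h2 : (2 : k) ≠ 0 := fun h => h6 (by linear_combination 3 * h)
  have hfr : Module.finrank k (Fin (n + 1) → k) = n + 1 := by simp
  obtain ⟨B, hQB, hBp, hBg⟩ := exists_bil h2 hq hsm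
  have hinf : Infinite k := IsAlgClosed.instInfinite
  have hz : ∀ {f : MvPolynomial (Fin (n + 1)) k} {d : ℕ}, f.IsHomogeneous d → d ≠ 0 →
      eval (0 : Fin (n + 1) → k) f = 0 := by
    intro f d hf hd
    exact eval_zero_of_homog hf hd
  -- the point `θ`
  obtain ⟨θ, t1, t2⟩ : ∃ θ : Fin (n + 1) → k, aeval θ q = 0 ∧ aeval θ g ≠ 0 := by
    by_contra hcon
    push Not at hcon
    obtain ⟨x, hx0, hx⟩ := Helper41.Eggert.exists_ne_zero_common_zero (K := k) {q}
      (by simp; omega) (by simpa using hz hq (by norm_num))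
    have hxq : aeval x q = 0 := by
      have := hx q (by simp)
      simpa [aeval_eq_eval] using this
    refine not_mult (hsm' x hx0 hxq (hcon x hxq)) ?_
    obtain ⟨c, hc⟩ := Lin.span_isotropic hQB h2 (by rw [hfr]; omega) hx0 (gr g x) (by
      intro v hv hxv
      rw [gr_apply]
      refine grad_dir g x v fun t => hcon _ ?_
      have h3 := hQB.add x (t • v)
      have h4 := hQB.smul t v
      have h6' : aeval v q = 0 := hv
      have h5 : (fun i => x i + t * v i) = x + t • v := by funext i; simp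
      rw [h5]
      refine h3.trans ?_
      rw [h4, map_smul, hxv]
      simp only [hxq, h6']
      simp)
    exact ⟨c, fun v => by rw [hc, hBg]⟩
  -- the point `p`
  have hℓ : (∑ i, C (aeval θ (pderiv i q)) * X i : MvPolynomial (Fin (n + 1)) k).IsHomogeneous 1 := by
    refine IsHomogeneous.sum _ _ _ fun i _ => ?_
    simpa using (isHomogeneous_C _ _).mul (isHomogeneous_X k i)
  have hD : (∑ i, C (θ i) * pderiv i g : MvPolynomial (Fin (n + 1)) k).IsHomogeneous 3 := by
    refine IsHomogeneous.sum _ _ _ fun i _ => ?_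
    simpa using (isHomogeneous_C _ (θ i)).mul (hg.pderiv (i := i))
  obtain ⟨p, hp0, hp⟩ := Helper41.Eggert.exists_ne_zero_common_zero (K := k)
    {q, (∑ i, C (aeval θ (pderiv i q)) * X i : MvPolynomial (Fin (n + 1)) k), g,
      (∑ i, C (θ i) * pderiv i g : MvPolynomial (Fin (n + 1)) k)}
    (Finset.card_le_four.trans_lt (by omega)) (by
      intro f hf
      simp only [Finset.mem_insert, Finset.mem_singleton] at hf
      rcases hf with rfl | rfl | rfl | rfl
      · exact hz hq (by norm_num)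
      · exact hz hℓ (by norm_num)
      · exact hz hg (by norm_num)
      · exact hz hD (by norm_num))
  have p1 : aeval p q = 0 := by
    have := hp q (by simp)
    simpa [aeval_eq_eval] using this
  have p2 : B θ p = 0 := by
    have := hp (∑ i, C (aeval θ (pderiv i q)) * X i) (by simp)
    rw [hBg, gr_apply]
    simpa using this
  have p3 : aeval p g = 0 := by
    have := hp g (by simp)
    simpa [aeval_eq_eval] using this
  have p4 : gr g p θ = 0 := by
    have := hp (∑ i, C (θ i) * pderiv i g) (by simp)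
    rw [gr_apply]
    have h3 : ∑ i, aeval p (pderiv i g) * θ i = ∑ i, θ i * eval p (pderiv i g) :=
      Finset.sum_congr rfl fun i _ => by rw [mul_comm]; rfl
    rw [h3]
    simpa using this
  have hg0 : ∀ (c : k) (x : Fin (n + 1) → k), aeval (c • x) g = c ^ 4 * aeval x g := by
    intro c x
    rw [aeval_def, aeval_def, eval₂_eq, eval₂_eq, Finset.mul_sum]
    refine Finset.sum_congr rfl fun d hd => ?_
    have hdeg : ∑ i ∈ d.support, d i = 4 := by
      have h := hg (mem_support_iff.1 hd)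
      rw [← h]
      simp [Finsupp.weight_apply, Finsupp.sum]
    have hprod : ∏ i ∈ d.support, (c • x) i ^ d i = c ^ 4 * ∏ i ∈ d.support, x i ^ d i := by
      rw [← hdeg, ← Finset.prod_pow_eq_pow_sum, ← Finset.prod_mul_distrib]
      exact Finset.prod_congr rfl fun i _ => by rw [Pi.smul_apply, smul_eq_mul, mul_pow]
    rw [hprod]
    ring
  have hi' : ∀ c : k, θ ≠ c • p := by
    intro c hc
    apply t2
    rw [hc, hg0, p3, mul_zero]
  have hi : ∀ c : k, p ≠ c • θ := by
    intro c hc
    have hc0 : c ≠ 0 := by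
      rintro rfl
      exact hp0 (by rw [hc, zero_smul])
    exact hi' c⁻¹ (by rw [hc, smul_smul, inv_mul_cancel₀ hc0, one_smul])
  obtain ⟨p', θ', u, a1, a2, a3, a4, a5, a6, a7, a8, a9, a10, a11, a12, a13⟩ :=
    Lin.frame hQB h2 (by rw [hfr]; omega) p1 t1 (by rw [hQB.symm, p2]) hi hi' (gr g p)
      (by rw [gr_self hg, p3, mul_zero]) p4 (by
        rintro ⟨c, hc⟩
        exact not_mult (hsm' p hp0 p1 p3) ⟨c, fun v => by rw [hc, hBg]⟩)
  simp only [hBp] at a4 a5 a6 a7 a8 a9 a10 a11 a12
  refine ⟨p, θ, p', θ', u, p1, t1, a1, a2, a3, ?_, a4, a5, a6, a7, a8, a9, a10, a11, a12, p3, ?_,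
    t2, ?_⟩
  · rw [← hBp, hQB.symm, p2]
  · rw [← gr_eq, p4]
  · rw [← gr_eq, ← gr_eq]
    exact a13

theorem choice [IsAlgClosed k] (h6 : (6 : k) ≠ 0) (hn : 4 ≤ n)
    {q g : MvPolynomial (Fin (n + 1)) k} (hq : q.IsHomogeneous 2) (hg : g.IsHomogeneous 4)
    (hsm : ∀ x : Fin (n + 1) → k, x ≠ 0 → aeval x q = 0 → ∃ i, aeval x (pderiv i q) ≠ 0)
    (hsm' : ∀ x : Fin (n + 1) → k, x ≠ 0 → aeval x q = 0 → aeval x g = 0 →
      LinearIndependent k ![fun i => aeval x (pderiv i q), fun i => aeval x (pderiv i g)]) :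
    ∃ p θ p' θ' u : Fin (n + 1) → k, aeval p q = 0 ∧ aeval θ q = 0 ∧ aeval p' q = 0 ∧
      aeval θ' q = 0 ∧ aeval u q = 1 ∧ pol q p θ = 0 ∧ pol q p p' = 1 ∧ pol q p θ' = 0 ∧
      pol q p u = 0 ∧ pol q θ p' = 0 ∧ pol q θ θ' = 1 ∧ pol q θ u = 0 ∧ pol q p' θ' = 0 ∧
      pol q p' u = 0 ∧ pol q θ' u = 0 ∧ aeval p g = 0 ∧ T g 1 p θ = 0 ∧ aeval θ g ≠ 0 ∧
      (T g 1 p θ' ≠ 0 ∨ T g 1 p u ≠ 0) :=
  choice' h6 hn hq hg hsm hsm'

end Pool.Agent.Helper97.DC
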