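import Mathlib

/-!
# Tripling a point on a curve of genus one

On the curve `w² = F0 + F1 r + F2 r² + F3 r³ + F4 r⁴` with the point `r = 0`, `w = ω`, the function
`w - (ω + α r + β r²)` vanishes three times at this point; its fourth zero is the point `r`, `ω w1`.
-/

set_option autoImplicit false

namespace Pool.Agent.Helper97.DC

theorem triple {K : Type*} [Field K] (h2 : (2 : K) ≠ 0) {ω F0 F1 F2 F3 F4 A B r w1 : K}
    (hω : ω ^ 2 = F0) (hω0 : ω ≠ 0)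
    (hA : A = 8 * F0 ^ 2 * F3 - F1 * (4 * F0 * F2 - F1 ^ 2))
    (hB : B = (4 * F0 * F2 - F1 ^ 2) ^ 2 - 64 * F0 ^ 3 * F4) (hB0 : B ≠ 0)
    (hr : r = 8 * F0 * A / B)
    (hw1 : w1 = 1 + 4 * F1 * A / B + 8 * (4 * F0 * F2 - F1 ^ 2) * A ^ 2 / B ^ 2) :
    (ω * w1) ^ 2 = F0 + F1 * r + F2 * r ^ 2 + F3 * r ^ 3 + F4 * r ^ 4 := by
  obtain ⟨t, ht⟩ : ∃ t : K, t = A / B := ⟨_, rfl⟩
  have ht1 : t * B = A := by
    rw [ht]
    exact div_mul_cancel₀ A hB0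
  have hr1 : r = 8 * F0 * t := by
    rw [hr, ht]
    ring
  have hw2 : w1 = 1 + 4 * F1 * t + 8 * (4 * F0 * F2 - F1 ^ 2) * t ^ 2 := by
    rw [hw1, ht, div_pow]
    ring
  rw [mul_pow, hω, hr1, hw2]
  rw [hA, hB] at ht1
  linear_combination 64 * F0 * t ^ 3 * ht1

end Pool.Agent.Helper97.DC
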