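import Pool.Agent.Helper97.SD.Basic
import Pool.Agent.Helper97.DC.Triple

/-!
# Rational surfaces in double covers branched along quartics: the core

`g` is a form of degree four, `θ` a point with `g (θ) ≠ 0`, `p` a point with `g (p) = 0` at which the
line `p + t θ` is tangent to `g = 0`. The double cover of this line is the rational curve
`ω'² = G2 + G3 t + G4 t²`, `ω = t ω'`. Through its points go lines with directions `Θ (t, m)`, the
double covers of which are curves of genus one; the points of the rational curve are tripled.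
-/

set_option autoImplicit false

namespace Pool.Agent.Helper97.DC

open MvPolynomial Pool.Agent.Helper97.SD

universe u

variable {k : Type u} [Field k] {n : ℕ}

/-- The function field of the plane. -/
abbrev KK (k : Type u) [Field k] : Type u := FractionRing (MvPolynomial (Fin 2) k)

/-! ## Taylor expansion in any degree -/

section Taylor

variable {L : Type*} [CommRing L] [Algebra k L]

private theorem lin_prod (p θ : Fin (n + 1) → L) (s : Fin (n + 1) →₀ ℕ) (S : Finset (Fin (n + 1))) :
    (∏ i ∈ S, (Polynomial.C (p i) + Polynomial.X * Polynomial.C (θ i)) ^ s i).natDegree ≤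
        ∑ i ∈ S, s i ∧
      (∏ i ∈ S, (Polynomial.C (p i) + Polynomial.X * Polynomial.C (θ i)) ^ s i).coeff
        (∑ i ∈ S, s i) = ∏ i ∈ S, θ i ^ s i := by
  classical
  induction S using Finset.induction_on with
  | empty => simp
  | insert a S ha ih =>
    have h1 : (Polynomial.C (p a) + Polynomial.X * Polynomial.C (θ a)).natDegree ≤ 1 := by
      compute_degree
    have h2 : ((Polynomial.C (p a) + Polynomial.X * Polynomial.C (θ a)) ^ s a).natDegree ≤ s a := by
      have := Polynomial.natDegree_pow_le_of_le (s a) h1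
      simpa using this
    have h3 : ((Polynomial.C (p a) + Polynomial.X * Polynomial.C (θ a)) ^ s a).coeff (s a) =
        θ a ^ s a := by
      have h4 := Polynomial.coeff_pow_of_natDegree_le (m := s a) h1
      rw [mul_one] at h4
      rw [h4]
      congr 1
      rw [Polynomial.coeff_add, Polynomial.coeff_C_succ, zero_add]
      simp
    rw [Finset.prod_insert ha, Finset.sum_insert ha, Finset.prod_insert ha]
    refine ⟨Polynomial.natDegree_mul_le_of_le h2 ih.1, ?_⟩
    rw [Polynomial.coeff_mul_add_eq_of_natDegree_le h2 ih.1, h3, ih.2]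

private theorem lin_form {f : MvPolynomial (Fin (n + 1)) k} {d : ℕ} (hf : f.IsHomogeneous d)
    (p θ : Fin (n + 1) → L) :
    (aeval (fun i => Polynomial.C (p i) + Polynomial.X * Polynomial.C (θ i)) f :
      Polynomial L).natDegree ≤ d ∧
    (aeval (fun i => Polynomial.C (p i) + Polynomial.X * Polynomial.C (θ i)) f :
      Polynomial L).coeff d = aeval θ f := by
  classical
  have hs : ∀ s ∈ f.support, ∑ i, s i = d := by
    intro s hs
    have h := hf (mem_support_iff.1 hs)
    rw [← h, Finsupp.weight_apply, Finsupp.sum_fintype _ _ (by simp)]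
    simp
  have hterm : ∀ s ∈ f.support,
      (aeval (fun i => Polynomial.C (p i) + Polynomial.X * Polynomial.C (θ i))
        (monomial s (f.coeff s)) : Polynomial L) =
      Polynomial.C (algebraMap k L (f.coeff s)) *
        ∏ i, (Polynomial.C (p i) + Polynomial.X * Polynomial.C (θ i)) ^ s i := by
    intro s _
    rw [aeval_monomial, Finsupp.prod_fintype _ _ (by simp)]
    rfl
  have hsum : (aeval (fun i => Polynomial.C (p i) + Polynomial.X * Polynomial.C (θ i)) f :
      Polynomial L) = ∑ s ∈ f.support, Polynomial.C (algebraMap k L (f.coeff s)) *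
        ∏ i, (Polynomial.C (p i) + Polynomial.X * Polynomial.C (θ i)) ^ s i := by
    conv_lhs => rw [f.as_sum, map_sum]
    exact Finset.sum_congr rfl hterm
  rw [hsum]
  constructor
  · refine Polynomial.natDegree_sum_le_of_forall_le _ _ fun s hs' => ?_
    refine (Polynomial.natDegree_C_mul_le _ _).trans ?_
    rw [← hs s hs']
    exact (lin_prod p θ s Finset.univ).1
  · rw [Polynomial.finsetSum_coeff]
    conv_rhs => rw [f.as_sum, map_sum]
    refine Finset.sum_congr rfl fun s hs' => ?_
    rw [Polynomial.coeff_C_mul, ← hs s hs', (lin_prod p θ s Finset.univ).2, aeval_monomial,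
      Finsupp.prod_fintype _ _ (by simp)]

/-- Taylor expansion of a form of degree `d`. -/
theorem T_poly_deg {f : MvPolynomial (Fin (n + 1)) k} {d : ℕ} (hf : f.IsHomogeneous d)
    (p θ : Fin (n + 1) → L) (r : L) :
    aeval (fun i => p i + r * θ i) f = ∑ j ∈ Finset.range (d + 1), T f j p θ * r ^ j := by
  have h := Polynomial.eval_eq_sum_range' (n := d + 1)
    (p := (aeval (fun i => Polynomial.C (p i) + Polynomial.X * Polynomial.C (θ i)) f :
      Polynomial L)) (Nat.lt_succ_of_le (lin_form hf p θ).1) r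
  unfold T
  rw [← h]
  have h2 : ∀ q : Polynomial L, q.eval r = Polynomial.aeval r q := fun q =>
    (Polynomial.coe_aeval_eq_eval r ▸ rfl)
  have h3 : ((Polynomial.aeval r : Polynomial L →ₐ[L] L).restrictScalars k)
      (aeval (fun i => Polynomial.C (p i) + Polynomial.X * Polynomial.C (θ i)) f) =
      aeval (fun i => p i + r * θ i) f := by
    rw [← AlgHom.comp_apply, comp_aeval]
    congr 2
    funext i
    simp only [AlgHom.restrictScalars_apply, map_add, map_mul, Polynomial.aeval_C,
      Polynomial.aeval_X, Algebra.algebraMap_self, RingHom.id_apply]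
  rw [h2, ← h3]
  rfl

/-- The leading Taylor coefficient. -/
theorem T_top {f : MvPolynomial (Fin (n + 1)) k} {d : ℕ} (hf : f.IsHomogeneous d)
    (p θ : Fin (n + 1) → L) : T f d p θ = aeval θ f := (lin_form hf p θ).2

end Taylor

/-! ## The function field of the plane -/

private theorem gen_top {A : IntermediateField k (KK k)}
    (h0 : algebraMap (MvPolynomial (Fin 2) k) (KK k) (X 0) ∈ A)
    (h1 : algebraMap (MvPolynomial (Fin 2) k) (KK k) (X 1) ∈ A) : A = ⊤ := by
  have hp : ∀ q : MvPolynomial (Fin 2) k, algebraMap (MvPolynomial (Fin 2) k) (KK k) q ∈ A := by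
    intro q
    induction q using MvPolynomial.induction_on with
    | C a =>
      have : algebraMap (MvPolynomial (Fin 2) k) (KK k) (C a) = algebraMap k (KK k) a := by
        rw [IsScalarTower.algebraMap_apply k (MvPolynomial (Fin 2) k)]
        rfl
      rw [this]
      exact A.algebraMap_mem a
    | add p q hp hq => rw [map_add]; exact A.add_mem hp hq
    | mul_X p i hp =>
      rw [map_mul]
      refine A.mul_mem hp ?_
      fin_cases i
      · exact h0
      · exact h1
  rw [eq_top_iff]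
  intro x _
  obtain ⟨a, b, -, rfl⟩ := IsFractionRing.div_surjective (A := MvPolynomial (Fin 2) k) x
  exact A.div_mem (hp a) (hp b)

private theorem aeval_mem {σ : Type*} (A : IntermediateField k (KK k)) (P : MvPolynomial σ k)
    {x : σ → KK k} (hx : ∀ i, x i ∈ A) : aeval x P ∈ A := by
  have h : aeval x P = A.val (aeval (fun i => (⟨x i, hx i⟩ : A)) P) := by
    rw [← AlgHom.comp_apply, comp_aeval]
    rfl
  rw [h]
  exact (aeval (fun i => (⟨x i, hx i⟩ : A)) P).2

private theorem T_mem (A : IntermediateField k (KK k)) (f : MvPolynomial (Fin (n + 1)) k) (j : ℕ)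
    {x y : Fin (n + 1) → KK k} (hx : ∀ i, x i ∈ A) (hy : ∀ i, y i ∈ A) : T f j x y ∈ A := by
  have h := T_map A.val f j (fun i => (⟨x i, hx i⟩ : A)) (fun i => (⟨y i, hy i⟩ : A))
  have h2 : T f j x y = A.val (T f j (fun i => (⟨x i, hx i⟩ : A)) (fun i => (⟨y i, hy i⟩ : A))) := by
    rw [h]; rfl
  rw [h2]
  exact (T f j (fun i => (⟨x i, hx i⟩ : A)) (fun i => (⟨y i, hy i⟩ : A))).2

/-- Specialisation of `t = N / D` at a point where `N` vanishes and `D` does not. -/
private theorem spec2 {N D : MvPolynomial (Fin 2) k} {s₀ m₀ : k} (hN : aeval ![s₀, m₀] N = 0)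
    (hD : aeval ![s₀, m₀] D ≠ 0) {t : KK k}
    (ht : t * algebraMap (MvPolynomial (Fin 2) k) (KK k) D =
      algebraMap (MvPolynomial (Fin 2) k) (KK k) N) (P : MvPolynomial (Fin 2) k)
    (hP : aeval ![t, algebraMap (MvPolynomial (Fin 2) k) (KK k) (X 1)] P = 0) :
    aeval ![0, m₀] P = 0 := by
  have key : ∀ P : MvPolynomial (Fin 2) k, ∃ (e : ℕ) (R : MvPolynomial (Fin 2) k),
      algebraMap (MvPolynomial (Fin 2) k) (KK k) D ^ e *
        aeval ![t, algebraMap (MvPolynomial (Fin 2) k) (KK k) (X 1)] P =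
          algebraMap (MvPolynomial (Fin 2) k) (KK k) R ∧
      aeval ![s₀, m₀] R = aeval ![s₀, m₀] D ^ e * aeval ![0, m₀] P := by
    intro P
    induction P using MvPolynomial.induction_on with
    | C a =>
      refine ⟨0, C a, ?_, ?_⟩
      · rw [pow_zero, one_mul, aeval_C, IsScalarTower.algebraMap_apply k (MvPolynomial (Fin 2) k)]
        rfl
      · simp
    | add P Q hP hQ =>
      obtain ⟨e, R, h1, h2⟩ := hP
      obtain ⟨e', R', h1', h2'⟩ := hQ
      refine ⟨e + e', D ^ e' * R + D ^ e * R', ?_, ?_⟩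
      · rw [map_add, map_add, map_mul, map_mul, map_pow, map_pow, ← h1, ← h1', pow_add]
        ring
      · rw [map_add, map_add, map_mul, map_mul, map_pow, map_pow, h2, h2', pow_add]
        ring
    | mul_X P i hP =>
      obtain ⟨e, R, h1, h2⟩ := hP
      fin_cases i
      · refine ⟨e + 1, R * N, ?_, ?_⟩
        · rw [map_mul, map_mul, aeval_X, ← h1, ← ht, pow_succ]
          simp only [Fin.zero_eta, Fin.isValue, Matrix.cons_val_zero]
          ring
        · rw [map_mul, map_mul, aeval_X, hN]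
          simp
      · refine ⟨e, R * X 1, ?_, ?_⟩
        · rw [map_mul, map_mul, aeval_X, ← h1]
          simp only [Fin.mk_one, Fin.isValue, Matrix.cons_val_one, Matrix.cons_val_fin_one]
          ring
        · rw [map_mul, map_mul, aeval_X, aeval_X, h2]
          simp only [Fin.mk_one, Fin.isValue, Matrix.cons_val_one, Matrix.cons_val_fin_one]
          ring
  obtain ⟨e, R, h1, h2⟩ := key P
  rw [hP, mul_zero] at h1
  have hR : R = 0 :=
    (FaithfulSMul.algebraMap_eq_zero_iff (MvPolynomial (Fin 2) k) (KK k)).1 h1.symm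
  rw [hR, map_zero] at h2
  exact (mul_eq_zero.1 h2.symm).resolve_left (pow_ne_zero e hD)

/-- The special point. -/
private theorem spec_choice [IsAlgClosed k] (h2 : (2 : k) ≠ 0) (G2 G3 h : k) (hh : h ≠ 0) :
    ∃ (N D : MvPolynomial (Fin 2) k) (s₀ : k), N ≠ 0 ∧
      (∀ m₀ : k, aeval ![s₀, m₀] N = 0 ∧ aeval ![s₀, m₀] D ≠ 0) ∧
      N * (C (2 * h) * X 0 - C G3) = D * (C G2 - X 0 ^ 2) := by
  have hX : (X 0 : MvPolynomial (Fin 2) k) ≠ 0 := X_ne_zero 0
  by_cases hG2 : G2 = 0
  · subst hG2
    by_cases hG3 : G3 = 0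
    · subst hG3
      refine ⟨-X 0, C (2 * h), 0, neg_ne_zero.2 hX, fun m₀ => ⟨by simp, ?_⟩, ?_⟩
      · simp [h2, hh]
      · simp only [map_zero]
        ring
    · refine ⟨-X 0 ^ 2, C (2 * h) * X 0 - C G3, 0, neg_ne_zero.2 (pow_ne_zero 2 hX),
        fun m₀ => ⟨by simp, by simp [hG3]⟩, ?_⟩
      simp only [map_zero]
      ring
  · obtain ⟨c, hc⟩ := IsAlgClosed.exists_pow_nat_eq G2 (n := 2) (by norm_num)
    have hc0 : c ≠ 0 := by
      rintro rfl
      exact hG2 (by rw [← hc]; simp)
    obtain ⟨s₀, hs, hs2⟩ : ∃ s₀ : k, s₀ ^ 2 = G2 ∧ 2 * h * s₀ - G3 ≠ 0 := by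
      by_cases h1 : 2 * h * c - G3 = 0
      · refine ⟨-c, by rw [neg_sq, hc], fun h3 => ?_⟩
        have h4 : 2 * 2 * h * c = 0 := by linear_combination h1 - h3
        exact (mul_ne_zero (mul_ne_zero (mul_ne_zero h2 h2) hh) hc0) h4
      · exact ⟨c, hc, h1⟩
    refine ⟨C G2 - X 0 ^ 2, C (2 * h) * X 0 - C G3, s₀, fun h0 => ?_, fun m₀ => ⟨?_, ?_⟩, by ring⟩
    · have := congrArg (aeval ![(0 : k), 0]) h0
      simp at this
      exact hG2 this
    · simp [hs]
    · simpa using hs2

/-- The core with the parameter `t` and the nonvanishing as hypotheses. -/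
private theorem core_of (h2K : (2 : KK k) ≠ 0) (h3k : (3 : k) ≠ 0) {g : MvPolynomial (Fin (n + 1)) k}
    (hg : g.IsHomogeneous 4) {p θ : Fin (n + 1) → k} (hp : aeval p g = 0) (ht : T g 1 p θ = 0)
    (Θ : Fin (n + 1) → MvPolynomial (Fin 2) k)
    {m₀ : k} (hΘ : T g 1 p (fun i => aeval ![0, m₀] (Θ i)) ≠ 0)
    {h : k} {t om' : KK k} (ht0 : t ≠ 0) (hom0 : om' ≠ 0)
    (hom : om' = algebraMap k (KK k) h * t + algebraMap (MvPolynomial (Fin 2) k) (KK k) (X 0))
    (hom2 : om' ^ 2 = algebraMap k (KK k) (T g 2 p θ) + algebraMap k (KK k) (T g 3 p θ) * t +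
      algebraMap k (KK k) (aeval θ g) * t ^ 2)
    (hspec : ∀ P : MvPolynomial (Fin 2) k,
      aeval ![t, algebraMap (MvPolynomial (Fin 2) k) (KK k) (X 1)] P = 0 →
        aeval ![0, m₀] P = 0) :
    ∃ t m r w : KK k, t ≠ 0 ∧ r ≠ 0 ∧
      w ^ 2 = aeval (fun i => algebraMap k (KK k) (p i) + t * algebraMap k (KK k) (θ i) +
        r * aeval ![t, m] (Θ i)) g ∧
      ∀ A : IntermediateField k (KK k), t ∈ A → m ∈ A → r ∈ A → w ∈ A → A = ⊤ := by
  set m : KK k := algebraMap (MvPolynomial (Fin 2) k) (KK k) (X 1) with hm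
  -- the coefficients as polynomials in `t`, `m`
  let yP : Fin (n + 1) → MvPolynomial (Fin 2) k := fun i => C (p i) + X 0 * C (θ i)
  let F : ℕ → MvPolynomial (Fin 2) k := fun j => T g j yP Θ
  let y : Fin (n + 1) → KK k := fun i => algebraMap k (KK k) (p i) + t * algebraMap k (KK k) (θ i)
  let Th : Fin (n + 1) → KK k := fun i => aeval ![t, m] (Θ i)
  have hy : (fun i => aeval ![t, m] (yP i)) = y := by
    funext i
    simp [yP, y]
  have hF : ∀ j, aeval ![t, m] (F j) = T g j y Th := by
    intro j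
    have e := T_map (aeval ![t, m] : MvPolynomial (Fin 2) k →ₐ[k] KK k) g j yP Θ
    rw [hy] at e
    exact e
  have hF0 : ∀ j, aeval ![0, m₀] (F j) = T g j p (fun i => aeval ![0, m₀] (Θ i)) := by
    intro j
    have e := T_map (aeval ![0, m₀] : MvPolynomial (Fin 2) k →ₐ[k] k) g j yP Θ
    have e1 : (fun i => aeval ![0, m₀] (yP i)) = p := by
      funext i
      simp [yP]
    rw [e1] at e
    exact e
  have hF00 : aeval ![0, m₀] (F 0) = 0 := by rw [hF0, T_zero, hp]
  set κ : k := T g 1 p (fun i => aeval ![0, m₀] (Θ i)) with hκ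
  have hF01 : aeval ![0, m₀] (F 1) = κ := hF0 1
  -- the point over `y`
  have hom3 : (t * om') ^ 2 = T g 0 y Th := by
    rw [T_zero, mul_pow, hom2]
    have e := T_poly_deg (L := KK k) hg (fun i => algebraMap k (KK k) (p i))
      (fun i => algebraMap k (KK k) (θ i)) t
    have eT : ∀ j, T g j (fun i => algebraMap k (KK k) (p i)) (fun i => algebraMap k (KK k) (θ i)) =
        algebraMap k (KK k) (T g j p θ) := by
      intro j
      rw [← Algebra.ofId_apply, T_map]
      rfl
    rw [show (fun i => y i) = y from rfl] at *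
    simp only [y]
    rw [e]
    simp only [Finset.sum_range_succ, Finset.sum_range_zero, eT]
    rw [T_zero, hp, ht, T_top hg]
    simp only [map_zero]
    ring
  -- the numbers `A`, `B`
  let AP : MvPolynomial (Fin 2) k := 8 * F 0 ^ 2 * F 3 - F 1 * (4 * F 0 * F 2 - F 1 ^ 2)
  let BP : MvPolynomial (Fin 2) k := (4 * F 0 * F 2 - F 1 ^ 2) ^ 2 - 64 * F 0 ^ 3 * F 4
  let WP : MvPolynomial (Fin 2) k := BP ^ 2 + 4 * F 1 * AP * BP +
    8 * (4 * F 0 * F 2 - F 1 ^ 2) * AP ^ 2
  have hA0 : aeval ![0, m₀] AP = κ ^ 3 := by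
    simp only [AP, map_sub, map_mul, map_pow, hF00, hF01]
    ring
  have hB0 : aeval ![0, m₀] BP = κ ^ 4 := by
    simp only [BP, map_sub, map_mul, map_pow, hF00, hF01]
    ring
  have hW0 : aeval ![0, m₀] WP = -3 * κ ^ 8 := by
    simp only [WP, map_add, map_sub, map_mul, map_pow, hA0, hB0, hF00, hF01, map_ofNat]
    ring
  have hAne : aeval ![t, m] AP ≠ 0 := fun h0 => by
    have := hspec AP h0
    rw [hA0] at this
    exact pow_ne_zero 3 hΘ this
  have hBne : aeval ![t, m] BP ≠ 0 := fun h0 => by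
    have := hspec BP h0
    rw [hB0] at this
    exact pow_ne_zero 4 hΘ this
  have hWne : aeval ![t, m] WP ≠ 0 := fun h0 => by
    have := hspec WP h0
    rw [hW0] at this
    exact mul_ne_zero (neg_ne_zero.2 h3k) (pow_ne_zero 8 hΘ) this
  set A : KK k := 8 * T g 0 y Th ^ 2 * T g 3 y Th -
    T g 1 y Th * (4 * T g 0 y Th * T g 2 y Th - T g 1 y Th ^ 2) with hAdef
  set B : KK k := (4 * T g 0 y Th * T g 2 y Th - T g 1 y Th ^ 2) ^ 2 -
    64 * T g 0 y Th ^ 3 * T g 4 y Th with hBdef
  have hAe : aeval ![t, m] AP = A := by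
    simp only [AP, map_sub, map_mul, map_pow, hF, map_ofNat, hAdef]
  have hBe : aeval ![t, m] BP = B := by
    simp only [BP, map_sub, map_mul, map_pow, hF, map_ofNat, hBdef]
  have hWe : aeval ![t, m] WP = B ^ 2 + 4 * T g 1 y Th * A * B +
      8 * (4 * T g 0 y Th * T g 2 y Th - T g 1 y Th ^ 2) * A ^ 2 := by
    simp only [WP, map_add, map_sub, map_mul, map_pow, hAe, hBe, hF, map_ofNat]
  have hA1 : A ≠ 0 := hAe ▸ hAne
  have hB1 : B ≠ 0 := hBe ▸ hBne
  set w1 : KK k := 1 + 4 * T g 1 y Th * A / B +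
    8 * (4 * T g 0 y Th * T g 2 y Th - T g 1 y Th ^ 2) * A ^ 2 / B ^ 2 with hw1def
  have hw1 : w1 ≠ 0 := by
    intro h0
    apply hWne
    rw [hWe]
    have : w1 * B ^ 2 = B ^ 2 + 4 * T g 1 y Th * A * B +
        8 * (4 * T g 0 y Th * T g 2 y Th - T g 1 y Th ^ 2) * A ^ 2 := by
      rw [hw1def]
      field_simp
    rw [← this, h0, zero_mul]
  have homne : t * om' ≠ 0 := mul_ne_zero ht0 hom0
  have hF0ne : T g 0 y Th ≠ 0 := by
    rw [← hom3]
    exact pow_ne_zero 2 homne
  set r : KK k := 8 * T g 0 y Th * A / B with hrdef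
  have h8 : (8 : KK k) ≠ 0 := by
    have : (8 : KK k) = 2 ^ 3 := by norm_num
    rw [this]
    exact pow_ne_zero 3 h2K
  have hr : r ≠ 0 := div_ne_zero (mul_ne_zero (mul_ne_zero h8 hF0ne) hA1) hB1
  refine ⟨t, m, r, t * om' * w1, ht0, hr, ?_, ?_⟩
  · rw [triple h2K hom3 homne hAdef hBdef hB1 hrdef hw1def]
    have e := T_poly_deg (L := KK k) hg y Th r
    refine Eq.trans ?_ e.symm
    simp only [Finset.sum_range_succ, Finset.sum_range_zero]
    ring
  · intro S htS hmS hrS hwS
    have hxS : ∀ i, ![t, m] i ∈ S := by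
      intro i
      fin_cases i
      · exact htS
      · exact hmS
    have hThS : ∀ i, Th i ∈ S := fun i => aeval_mem S (Θ i) hxS
    have hyS : ∀ i, y i ∈ S := fun i =>
      S.add_mem (S.algebraMap_mem _) (S.mul_mem htS (S.algebraMap_mem _))
    have hTS : ∀ j, T g j y Th ∈ S := fun j => T_mem S g j hyS hThS
    have hnat : ∀ N : ℕ, (N : KK k) ∈ S := fun N => natCast_mem S N
    have hAS : A ∈ S := hAe ▸ aeval_mem S AP hxS
    have hBS : B ∈ S := hBe ▸ aeval_mem S BP hxS
    have hWS : B ^ 2 + 4 * T g 1 y Th * A * B +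
      8 * (4 * T g 0 y Th * T g 2 y Th - T g 1 y Th ^ 2) * A ^ 2 ∈ S := hWe ▸ aeval_mem S WP hxS
    have hw1S : w1 ∈ S := by
      have : w1 = (B ^ 2 + 4 * T g 1 y Th * A * B +
          8 * (4 * T g 0 y Th * T g 2 y Th - T g 1 y Th ^ 2) * A ^ 2) / B ^ 2 := by
        rw [hw1def]
        field_simp
      rw [this]
      exact S.div_mem hWS (S.pow_mem hBS 2)
    have homS : t * om' ∈ S := by
      have : t * om' = t * om' * w1 / w1 := by field_simp
      rw [this]
      exact S.div_mem hwS hw1S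
    have hom'S : om' ∈ S := by
      have : om' = t * om' / t := by field_simp
      rw [this]
      exact S.div_mem homS htS
    refine gen_top ?_ hmS
    have : algebraMap (MvPolynomial (Fin 2) k) (KK k) (X 0) = om' - algebraMap k (KK k) h * t := by
      rw [hom]; ring
    rw [this]
    exact S.sub_mem hom'S (S.mul_mem (S.algebraMap_mem _) htS)

theorem core [IsAlgClosed k] (h6 : (6 : k) ≠ 0) {g : MvPolynomial (Fin (n + 1)) k}
    (hg : g.IsHomogeneous 4) {p θ : Fin (n + 1) → k} (hp : aeval p g = 0) (ht : T g 1 p θ = 0)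
    (hθ : aeval θ g ≠ 0) (Θ : Fin (n + 1) → MvPolynomial (Fin 2) k)
    (hΘ : ∃ m : k, T g 1 p (fun i => aeval ![0, m] (Θ i)) ≠ 0) :
    ∃ t m r w : KK k, t ≠ 0 ∧ r ≠ 0 ∧
      w ^ 2 = aeval (fun i => algebraMap k (KK k) (p i) + t * algebraMap k (KK k) (θ i) +
        r * aeval ![t, m] (Θ i)) g ∧
      ∀ A : IntermediateField k (KK k), t ∈ A → m ∈ A → r ∈ A → w ∈ A → A = ⊤ := by
  obtain ⟨m₀, hΘ⟩ := hΘ
  have h2 : (2 : k) ≠ 0 := fun h => h6 (by
    have : (6 : k) = 2 * 3 := by norm_num
    rw [this, h, zero_mul])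
  have h3 : (3 : k) ≠ 0 := fun h => h6 (by
    have : (6 : k) = 2 * 3 := by norm_num
    rw [this, h, mul_zero])
  obtain ⟨h, hh⟩ := IsAlgClosed.exists_pow_nat_eq (aeval θ g) (n := 2) (by norm_num)
  have hh0 : h ≠ 0 := by
    rintro rfl
    exact hθ (by rw [← hh]; simp)
  have h2K : (2 : KK k) ≠ 0 := by
    have : (2 : KK k) = algebraMap k (KK k) 2 := (map_ofNat (algebraMap k (KK k)) 2).symm
    rw [this, Ne, FaithfulSMul.algebraMap_eq_zero_iff]
    exact h2
  obtain ⟨N, D, s₀, hN0, hND, hrel⟩ := spec_choice h2 (T g 2 p θ) (T g 3 p θ) h hh0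
  obtain ⟨hN, hD⟩ := hND m₀
  have hD0 : D ≠ 0 := by
    rintro rfl
    exact hD (map_zero _)
  have hDK : algebraMap (MvPolynomial (Fin 2) k) (KK k) D ≠ 0 := by
    rw [Ne, FaithfulSMul.algebraMap_eq_zero_iff]
    exact hD0
  have hNK : algebraMap (MvPolynomial (Fin 2) k) (KK k) N ≠ 0 := by
    rw [Ne, FaithfulSMul.algebraMap_eq_zero_iff]
    exact hN0
  set s : KK k := algebraMap (MvPolynomial (Fin 2) k) (KK k) (X 0) with hs
  set t : KK k := algebraMap (MvPolynomial (Fin 2) k) (KK k) N /
    algebraMap (MvPolynomial (Fin 2) k) (KK k) D with ht'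
  have htD : t * algebraMap (MvPolynomial (Fin 2) k) (KK k) D =
      algebraMap (MvPolynomial (Fin 2) k) (KK k) N := div_mul_cancel₀ _ hDK
  have ht0 : t ≠ 0 := div_ne_zero hNK hDK
  have hspec := spec2 hN hD htD
  have hC : ∀ c : k, algebraMap (MvPolynomial (Fin 2) k) (KK k) (C c) = algebraMap k (KK k) c := by
    intro c
    rw [IsScalarTower.algebraMap_apply k (MvPolynomial (Fin 2) k)]
    rfl
  have hts : t * (2 * algebraMap k (KK k) h * s - algebraMap k (KK k) (T g 3 p θ)) =
      algebraMap k (KK k) (T g 2 p θ) - s ^ 2 := by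
    have e := congrArg (algebraMap (MvPolynomial (Fin 2) k) (KK k)) hrel
    simp only [map_mul, map_sub, map_pow, hC, ← hs, map_ofNat] at e
    refine mul_right_cancel₀ hDK ?_
    rw [← htD] at e
    linear_combination e
  set om' : KK k := algebraMap k (KK k) h * t + s with hom
  have hom2 : om' ^ 2 = algebraMap k (KK k) (T g 2 p θ) + algebraMap k (KK k) (T g 3 p θ) * t +
      algebraMap k (KK k) (aeval θ g) * t ^ 2 := by
    rw [hom, ← hh, map_pow]
    linear_combination hts
  have hom0 : om' ≠ 0 := by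
    intro h0
    obtain ⟨d, hd⟩ := IsAlgClosed.exists_pow_nat_eq
      ((T g 3 p θ) ^ 2 - 4 * aeval θ g * T g 2 p θ) (n := 2) (by norm_num)
    rw [h0] at hom2
    have hd' : algebraMap k (KK k) d ^ 2 = algebraMap k (KK k) (T g 3 p θ) ^ 2 -
        4 * algebraMap k (KK k) (aeval θ g) * algebraMap k (KK k) (T g 2 p θ) := by
      rw [← map_pow, hd]
      simp only [map_sub, map_mul, map_pow, map_ofNat]
    have e : (2 * algebraMap k (KK k) (aeval θ g) * t + algebraMap k (KK k) (T g 3 p θ)
        - algebraMap k (KK k) d) * (2 * algebraMap k (KK k) (aeval θ g) * t +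
        algebraMap k (KK k) (T g 3 p θ) + algebraMap k (KK k) d) = 0 := by
      linear_combination (-4 * algebraMap k (KK k) (aeval θ g)) * hom2 - hd'
    have fin : ∀ c : k, 2 * algebraMap k (KK k) (aeval θ g) * t + algebraMap k (KK k) c = 0 →
        False := by
      intro c hc
      have h1 := hspec (C (2 * aeval θ g) * X 0 + C c) (by
        simp only [map_add, map_mul, aeval_X, aeval_C, Matrix.cons_val_zero, map_ofNat]
        exact hc)
      have h3 : c = 0 := by simpa using h1
      rw [h3, map_zero, add_zero] at hc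
      refine (mul_ne_zero (mul_ne_zero h2K ?_) ht0) hc
      rw [Ne, FaithfulSMul.algebraMap_eq_zero_iff]
      exact hθ
    rcases mul_eq_zero.1 e with h1 | h1
    · exact fin (T g 3 p θ - d) (by rw [map_sub]; linear_combination h1)
    · exact fin (T g 3 p θ + d) (by rw [map_add]; linear_combination h1)
  exact core_of h2K h3 hg hp ht Θ hΘ ht0 hom0 hom hom2 hspec

end Pool.Agent.Helper97.DC
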