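import Pool.Agent.Helper97.DC.Core
import Pool.Agent.Helper41.Eggert.Zero

/-!
# Double covers of projective spaces branched along quartics
-/

set_option autoImplicit false

namespace Pool.Agent.Helper97.DC

open MvPolynomial Pool.Agent.Helper97.SD

universe u

variable {k : Type u} [Field k] {n : ℕ}

namespace P4

/-- A form of positive degree vanishes at the origin. -/
theorem eval_zero_of_homog {g : MvPolynomial (Fin (n + 1)) k} {d : ℕ} (hg : g.IsHomogeneous d)
    (hd : d ≠ 0) : eval (0 : Fin (n + 1) → k) g = 0 := by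
  have h2 : eval (0 : Fin (n + 1) → k) g = coeff 0 g := by simp [← constantCoeff_eq]
  rw [h2]
  by_contra hcon
  have h1 := hg hcon
  simp at h1
  exact hd h1.symm

theorem aeval_smul {g : MvPolynomial (Fin (n + 1)) k} {d : ℕ} (hg : g.IsHomogeneous d) (c : k)
    (p : Fin (n + 1) → k) : aeval (fun i => c * p i) g = c ^ d * aeval p g := by
  rw [aeval_def, aeval_def, eval₂_eq', eval₂_eq', Finset.mul_sum]
  refine Finset.sum_congr rfl fun e he => ?_
  have h1 : e.degree = d := by
    by_contra h
    exact (mem_support_iff.1 he) (hg.coeff_eq_zero h)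
  have h2 : ∑ i, e i = d := by
    rw [← h1, Finsupp.degree_eq_sum]
  simp only [mul_pow, Finset.prod_mul_distrib]
  rw [Finset.prod_pow_eq_pow_sum, h2]
  ring

theorem T_self {g : MvPolynomial (Fin (n + 1)) k} (hg : g.IsHomogeneous 4)
    {p : Fin (n + 1) → k} (hp : aeval p g = 0) : T g 1 p p = 0 := by
  rw [T_one]
  have h := congrArg (aeval p) hg.sum_X_mul_pderiv
  rw [map_sum, map_nsmul, hp, smul_zero] at h
  rw [← h]
  refine Finset.sum_congr rfl fun i _ => ?_
  rw [map_mul, aeval_X, mul_comm]

theorem T_add (g : MvPolynomial (Fin (n + 1)) k) (p θ η : Fin (n + 1) → k) :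
    T g 1 p (θ + η) = T g 1 p θ + T g 1 p η := by
  rw [T_one, T_one, T_one, ← Finset.sum_add_distrib]
  exact Finset.sum_congr rfl fun i _ => by rw [Pi.add_apply, mul_add]

theorem T_csmul (g : MvPolynomial (Fin (n + 1)) k) (p θ : Fin (n + 1) → k) (c : k) :
    T g 1 p (c • θ) = c * T g 1 p θ := by
  rw [T_one, T_one, Finset.mul_sum]
  exact Finset.sum_congr rfl fun i _ => by rw [Pi.smul_apply, smul_eq_mul]; ring

/-- A good line. -/
theorem exists_line [IsAlgClosed k] (hn : 3 ≤ n) {g : MvPolynomial (Fin (n + 1)) k}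
    (hg : g.IsHomogeneous 4)
    (hsm : ∀ x : Fin (n + 1) → k, x ≠ 0 → aeval x g = 0 → ∃ i, aeval x (pderiv i g) ≠ 0) :
    ∃ v : Fin 4 → Fin (n + 1) → k, LinearIndependent k v ∧ aeval (v 0) g = 0 ∧
      T g 1 (v 0) (v 1) = 0 ∧ aeval (v 1) g ≠ 0 ∧ T g 1 (v 0) (v 2) ≠ 0 := by
  classical
  have : Infinite k := IsAlgClosed.instInfinite
  -- a point outside
  obtain ⟨θ, hθ⟩ : ∃ θ : Fin (n + 1) → k, aeval θ g ≠ 0 := by
    by_contra hcon
    push Not at hcon
    have h0 : g = 0 := by
      apply MvPolynomial.funext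
      intro x
      rw [map_zero]
      exact hcon x
    obtain ⟨i, hi⟩ := hsm (fun _ => 1) (fun h => one_ne_zero (congrFun h 0)) (hcon _)
    rw [h0] at hi
    simp at hi
  -- the point of contact
  obtain ⟨p, hp, hz⟩ := Helper41.Eggert.exists_ne_zero_common_zero (K := k)
    ({g, ∑ i, C (θ i) * pderiv i g} : Finset (MvPolynomial (Fin (n + 1)) k))
    (lt_of_le_of_lt Finset.card_le_two (by omega)) (by
      intro f hf
      simp only [Finset.mem_insert, Finset.mem_singleton] at hf
      rcases hf with rfl | rfl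
      · exact eval_zero_of_homog hg (by norm_num)
      · rw [map_sum]
        refine Finset.sum_eq_zero fun i _ => ?_
        rw [map_mul, eval_zero_of_homog (hg.pderiv (i := i)) (by norm_num), mul_zero])
  have hgp : aeval p g = 0 := hz _ (by simp)
  have hT1 : T g 1 p θ = 0 := by
    have h := hz (∑ i, C (θ i) * pderiv i g) (by simp)
    rw [map_sum] at h
    rw [T_one, ← h]
    refine Finset.sum_congr rfl fun i _ => ?_
    rw [map_mul, eval_C, mul_comm]
    rfl
  -- the third direction
  obtain ⟨i, hi⟩ := hsm p hp hgp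
  have hTη : T g 1 p (Pi.single i 1) ≠ 0 := by
    rw [T_one]
    simpa [Pi.single_apply] using hi
  have hind : LinearIndependent k ![p, θ, Pi.single i 1] := by
    rw [Fintype.linearIndependent_iff]
    intro a ha
    rw [Fin.sum_univ_three] at ha
    simp only [Matrix.cons_val_zero, Matrix.cons_val_one, Matrix.cons_val_two, Matrix.head_cons,
      Matrix.tail_cons] at ha
    have h2 : a 2 = 0 := by
      have h := congrArg (T g 1 p) ha
      rw [T_add, T_add, T_csmul, T_csmul, T_csmul, T_self hg hgp, hT1, mul_zero, mul_zero,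
        zero_add, zero_add] at h
      have h0 : T g 1 p 0 = 0 := by
        rw [T_one]
        simp
      rw [h0] at h
      exact (mul_eq_zero.1 h).resolve_right hTη
    rw [h2, zero_smul, add_zero] at ha
    have h1 : a 1 = 0 := by
      by_contra h1
      apply hθ
      have e : θ = fun j => (-(a 1)⁻¹ * a 0) * p j := by
        funext j
        have h := congrFun ha j
        simp only [Pi.add_apply, Pi.smul_apply, smul_eq_mul, Pi.zero_apply] at h
        field_simp
        linear_combination h
      rw [e, aeval_smul hg, hgp, mul_zero]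
    rw [h1, zero_smul, add_zero] at ha
    have h0 : a 0 = 0 := (smul_eq_zero.1 ha).resolve_right hp
    intro j
    fin_cases j
    · exact h0
    · exact h1
    · exact h2
  obtain ⟨ζ, hζ⟩ := exists_linearIndependent_snoc_of_lt_finrank hind (by
    rw [Module.finrank_fintype_fun_eq_card, Fintype.card_fin]
    omega)
  refine ⟨_, hζ, ?_, ?_, ?_, ?_⟩
  · exact hgp
  · exact hT1
  · exact hθ
  · exact hTη

end P4

theorem p4 [IsAlgClosed k] (h6 : (6 : k) ≠ 0) (hn : 3 ≤ n) {g : MvPolynomial (Fin (n + 1)) k}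
    (hg : g.IsHomogeneous 4)
    (hsm : ∀ x : Fin (n + 1) → k, x ≠ 0 → aeval x g = 0 → ∃ i, aeval x (pderiv i g) ≠ 0) :
    ∃ (y : Fin (n + 1) → KK k) (w : KK k), w ^ 2 = aeval y g ∧ ∃ i, y i ≠ 0 ∧
      IntermediateField.adjoin k (Set.range (fun j => y j / y i) ∪ {w / y i ^ 2}) = ⊤ := by
  obtain ⟨v, hv, hv0, hv1, hv1', hv2⟩ := P4.exists_line hn hg hsm
  obtain ⟨M, hM⟩ := LinearMap.exists_leftInverse_of_injective
    (Fintype.linearCombination k v) (by
      rw [LinearMap.ker_eq_bot]
      exact linearIndependent_iff_injective_fintypeLinearCombination.1 hv)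
  have hMv : ∀ a, M (v a) = Pi.single a 1 := by
    intro a
    have h := LinearMap.congr_fun hM (Pi.single a 1)
    rw [LinearMap.comp_apply, Fintype.linearCombination_apply_single] at h
    simpa using h
  set c : Fin 4 → Fin (n + 1) → k := fun a j => M (Pi.single j 1) a with hc
  have hcv : ∀ a b, ∑ j, c a j * v b j = if a = b then 1 else 0 := by
    intro a b
    have h : M (v b) = ∑ j, v b j • M (Pi.single j 1) := by
      conv_lhs => rw [← Finset.univ_sum_single (v b)]
      rw [map_sum]
      refine Finset.sum_congr rfl fun j _ => ?_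
      rw [← map_smul]
      congr 1
      ext l
      simp [Pi.single_apply]
    have h2 := congrFun (h.symm.trans (hMv b)) a
    rw [Finset.sum_apply] at h2
    rw [Pi.single_apply] at h2
    rw [← h2]
    refine Finset.sum_congr rfl fun j _ => ?_
    rw [Pi.smul_apply, smul_eq_mul, mul_comm]
  obtain ⟨t, m, r, w, ht, hr, hw, htop⟩ := core h6 hg hv0 hv1 hv1'
    (fun i => C (v 2 i) + X 1 * C (v 3 i)) ⟨0, by simpa using hv2⟩
  set y : Fin (n + 1) → KK k := fun i => algebraMap k (KK k) (v 0 i) +
    t * algebraMap k (KK k) (v 1 i) + r * aeval ![t, m] (C (v 2 i) + X 1 * C (v 3 i)) with hy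
  have hyi : ∀ i, y i = algebraMap k (KK k) (v 0 i) + t * algebraMap k (KK k) (v 1 i) +
      r * algebraMap k (KK k) (v 2 i) + r * m * algebraMap k (KK k) (v 3 i) := by
    intro i
    rw [hy]
    simp only [map_add, map_mul, aeval_C, aeval_X]
    simp
    ring
  have hlin : ∀ a, ∑ j, algebraMap k (KK k) (c a j) * y j = (if a = 0 then 1 else 0) +
      t * (if a = 1 then 1 else 0) + r * (if a = 2 then 1 else 0) +
      r * m * (if a = 3 then 1 else 0) := by
    intro a
    have hb : ∀ b, ∑ j, algebraMap k (KK k) (c a j) * algebraMap k (KK k) (v b j) =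
        if a = b then 1 else 0 := by
      intro b
      have h := congrArg (algebraMap k (KK k)) (hcv a b)
      rw [map_sum] at h
      simp only [map_mul] at h
      rw [h]
      split_ifs <;> simp
    rw [← hb 0, ← hb 1, ← hb 2, ← hb 3, Finset.mul_sum, Finset.mul_sum, Finset.mul_sum,
      ← Finset.sum_add_distrib, ← Finset.sum_add_distrib, ← Finset.sum_add_distrib]
    refine Finset.sum_congr rfl fun j _ => ?_
    rw [hyi]
    ring
  have h0 := hlin 0
  have h1 := hlin 1
  have h2 := hlin 2
  have h3 := hlin 3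
  simp at h0 h1 h2 h3
  obtain ⟨i, hi⟩ : ∃ i, y i ≠ 0 := by
    by_contra hcon
    push Not at hcon
    simp [hcon] at h0
  refine ⟨y, w, hw, i, hi, ?_⟩
  set A := IntermediateField.adjoin k (Set.range (fun j => y j / y i) ∪ {w / y i ^ 2}) with hA
  have hAj : ∀ j, y j / y i ∈ A := fun j =>
    IntermediateField.subset_adjoin _ _ (Or.inl ⟨j, rfl⟩)
  have hAw : w / y i ^ 2 ∈ A := IntermediateField.subset_adjoin _ _ (Or.inr rfl)
  have hinv : (y i)⁻¹ ∈ A := by
    have h : (y i)⁻¹ = ∑ j, algebraMap k (KK k) (c 0 j) * (y j / y i) := by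
      rw [inv_eq_one_div, ← h0, Finset.sum_div]
      exact Finset.sum_congr rfl fun j _ => by rw [mul_div_assoc]
    rw [h]
    exact sum_mem fun j _ => mul_mem (A.algebraMap_mem _) (hAj j)
  have hyiA : y i ∈ A := by
    have := inv_mem hinv
    rwa [inv_inv] at this
  have hyA : ∀ j, y j ∈ A := by
    intro j
    have := mul_mem (hAj j) hyiA
    rwa [div_mul_cancel₀ _ hi] at this
  have hwA : w ∈ A := by
    have := mul_mem hAw (pow_mem hyiA 2)
    rwa [div_mul_cancel₀ _ (pow_ne_zero 2 hi)] at this
  have hsum : ∀ a, ∑ j, algebraMap k (KK k) (c a j) * y j ∈ A := fun a =>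
    sum_mem fun j _ => mul_mem (A.algebraMap_mem _) (hyA j)
  have htA : t ∈ A := by
    rw [← h1]
    exact hsum 1
  have hrA : r ∈ A := by
    rw [← h2]
    exact hsum 2
  have hmA : m ∈ A := by
    have h : r * m ∈ A := by
      rw [← h3]
      exact hsum 3
    have := mul_mem (inv_mem hrA) h
    rwa [inv_mul_cancel_left₀ hr] at this
  exact htop A htA hmA hrA hwA

end Pool.Agent.Helper97.DC
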