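import Pool.Agent.Helper97.DC.Core
import Pool.Agent.Helper97.DC.Choice
import Pool.Agent.Helper97.SD.Quadric

/-!
# Double covers of quadrics branched along quartic sections
-/

set_option autoImplicit false

namespace Pool.Agent.Helper97.DC.Q4

open MvPolynomial Pool.Agent.Helper97.SD Pool.Agent.Helper97.SD.Qd

universe u

variable {k : Type u} [Field k] {n N : ℕ}

theorem bf_symm {L : Type*} [CommRing L] [Algebra k L] (M : Fin N → Fin N → k)
    (x y : Fin N → L) : bf M x y = bf M y x := by
  simp only [bf]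
  exact Finset.sum_congr rfl fun i _ => Finset.sum_congr rfl fun j _ => by ring

theorem bf_add {L : Type*} [CommRing L] [Algebra k L] (M : Fin N → Fin N → k)
    (x y v : Fin N → L) (z : L) : bf M v (fun i => x i + z * y i) = bf M v x + z * bf M v y := by
  simp only [bf, Finset.mul_sum, ← Finset.sum_add_distrib]
  exact Finset.sum_congr rfl fun i _ => Finset.sum_congr rfl fun j _ => by ring

theorem bf_smul {L : Type*} [CommRing L] [Algebra k L] (M : Fin N → Fin N → k)
    (x v : Fin N → L) (z : L) : bf M v (fun i => z * x i) = z * bf M v x := by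
  simp only [bf, Finset.mul_sum]
  exact Finset.sum_congr rfl fun i _ => Finset.sum_congr rfl fun j _ => by ring

theorem bf_self {L : Type*} [CommRing L] [Algebra k L] (M : Fin N → Fin N → k)
    (x : Fin N → L) : bf M x x = 2 * qf M x := by
  simp only [bf, qf, Finset.mul_sum]
  exact Finset.sum_congr rfl fun i _ => Finset.sum_congr rfl fun j _ => by ring

theorem bf_mem {L : Type*} [Field L] [Algebra k L] (A : IntermediateField k L)
    (M : Fin N → Fin N → k) (x : Fin N → k) (y : Fin N → L) (hy : ∀ i, y i ∈ A) :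
    bf M (fun i => algebraMap k L (x i)) y ∈ A := by
  simp only [bf]
  refine sum_mem fun i _ => sum_mem fun j _ => ?_
  exact mul_mem (A.algebraMap_mem _) (add_mem (mul_mem (A.algebraMap_mem _) (hy j))
    (mul_mem (hy i) (A.algebraMap_mem _)))

theorem bf_base {L : Type*} [CommRing L] [Algebra k L] (M : Fin N → Fin N → k)
    (x y : Fin N → k) : bf M (fun i => algebraMap k L (x i)) (fun i => algebraMap k L (y i)) =
      algebraMap k L (bf M x y) := by
  have := map_bf M (Algebra.ofId k L) x y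
  simpa [Algebra.ofId_apply] using this.symm

theorem qf_base {L : Type*} [CommRing L] [Algebra k L] (M : Fin N → Fin N → k)
    (x : Fin N → k) : qf M (fun i => algebraMap k L (x i)) = algebraMap k L (qf M x) := by
  have := map_qf M (Algebra.ofId k L) x
  simpa [Algebra.ofId_apply] using this.symm

theorem pol_eq {q : MvPolynomial (Fin (n + 1)) k} {M : Fin (n + 1) → Fin (n + 1) → k}
    (hM : q = ∑ i, ∑ j, C (M i j) * (X i * X j)) (x y : Fin (n + 1) → k) :
    pol q x y = bf M x y := by
  have h := qf_line M x y (1 : k)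
  have h3 : (fun i => x i + 1 * y i) = x + y := by
    funext i; simp
  rw [h3] at h
  rw [pol, aeval_qf hM, aeval_qf hM, aeval_qf hM, h]
  ring

end Pool.Agent.Helper97.DC.Q4

namespace Pool.Agent.Helper97.DC

open MvPolynomial Pool.Agent.Helper97.SD Pool.Agent.Helper97.SD.Qd Q4

universe u

variable {k : Type u} [Field k] {n : ℕ}

theorem q4 [IsAlgClosed k] (h6 : (6 : k) ≠ 0) (hn : 4 ≤ n)
    {q g : MvPolynomial (Fin (n + 1)) k} (hq : q.IsHomogeneous 2) (hg : g.IsHomogeneous 4)
    (hsm : ∀ x : Fin (n + 1) → k, x ≠ 0 → aeval x q = 0 → ∃ i, aeval x (pderiv i q) ≠ 0)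
    (hsm' : ∀ x : Fin (n + 1) → k, x ≠ 0 → aeval x q = 0 → aeval x g = 0 →
      LinearIndependent k ![fun i => aeval x (pderiv i q), fun i => aeval x (pderiv i g)]) :
    ∃ (y : Fin (n + 1) → KK k) (w : KK k), aeval y q = 0 ∧ w ^ 2 = aeval y g ∧ ∃ i, y i ≠ 0 ∧
      IntermediateField.adjoin k (Set.range (fun j => y j / y i) ∪ {w / y i ^ 2}) = ⊤ := by
  classical
  have h2 : (2 : k) ≠ 0 := by
    intro h
    apply h6
    have : (6 : k) = 3 * 2 := by norm_num
    rw [this, h, mul_zero]
  obtain ⟨M, hM⟩ := quad_matrix h2 hq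
  obtain ⟨p, θ, p', θ', u, qp, qθ, qp', qθ', qu, ppθ, ppp', ppθ', ppu, pθp', pθθ', pθu, pp'θ',
    pp'u, pθ'u, gp, gpθ, gθ, hor⟩ := choice h6 hn hq hg hsm hsm'
  rw [pol_eq hM] at ppθ ppp' ppθ' ppu pθp' pθθ' pθu pp'θ' pp'u pθ'u
  rw [aeval_qf hM] at qp qθ qp' qθ' qu
  set Θ : Fin (n + 1) → MvPolynomial (Fin 2) k := fun i =>
    C (θ' i) + X 1 * C (u i) - X 1 ^ 2 * C (θ i) - X 0 * C (p' i) with hΘd
  have hΘ : ∃ m : k, T g 1 p (fun i => aeval ![0, m] (Θ i)) ≠ 0 := by
    have hT : ∀ m : k, T g 1 p (fun i => aeval ![0, m] (Θ i)) = T g 1 p θ' + m * T g 1 p u := by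
      intro m
      rw [T_one, T_one, T_one]
      rw [T_one] at gpθ
      have : ∑ i, aeval p (pderiv i g) * aeval ![0, m] (Θ i) =
          ∑ i, aeval p (pderiv i g) * θ' i + m * ∑ i, aeval p (pderiv i g) * u i -
            m ^ 2 * ∑ i, aeval p (pderiv i g) * θ i := by
        rw [Finset.mul_sum, Finset.mul_sum, ← Finset.sum_add_distrib, ← Finset.sum_sub_distrib]
        refine Finset.sum_congr rfl fun i _ => ?_
        rw [hΘd]
        simp only [map_sub, map_add, map_mul, map_pow, aeval_X, aeval_C, Matrix.cons_val_zero,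
          Matrix.cons_val_one, Algebra.algebraMap_self, RingHom.id_apply]
        ring
      rw [this, gpθ]
      ring
    rcases hor with h | h
    · exact ⟨0, by rw [hT]; simpa using h⟩
    · by_cases h0 : T g 1 p θ' = 0
      · exact ⟨1, by rw [hT, h0]; simpa using h⟩
      · exact ⟨0, by rw [hT]; simpa using h0⟩
  obtain ⟨t, m, r, w, ht, hr, hw, hgen⟩ := core h6 hg gp gpθ gθ Θ hΘ
  set ι := algebraMap k (KK k) with hι
  set y : Fin (n + 1) → KK k := fun i => ι (p i) + t * ι (θ i) + r * aeval ![t, m] (Θ i) with hy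
  -- the point in coordinates
  have hyc : y = fun i => (((ι (p i) + (t - r * m ^ 2) * ι (θ i)) + (-(r * t)) * ι (p' i)) +
      r * ι (θ' i)) + (r * m) * ι (u i) := by
    funext i
    rw [hy, hΘd]
    simp only [map_sub, map_add, map_mul, map_pow, aeval_X, aeval_C, Matrix.cons_val_zero,
      Matrix.cons_val_one]
    ring
  have hbase : ∀ x z : Fin (n + 1) → k, bf M (fun i => ι (x i)) (fun i => ι (z i)) = ι (bf M x z) :=
    fun x z => bf_base M x z
  have hB : ∀ x : Fin (n + 1) → k, bf M (fun i => ι (x i)) y =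
      ι (bf M x p) + (t - r * m ^ 2) * ι (bf M x θ) + (-(r * t)) * ι (bf M x p') +
        r * ι (bf M x θ') + (r * m) * ι (bf M x u) := by
    intro x
    rw [hyc, bf_add, bf_add, bf_add, bf_add, hbase, hbase, hbase, hbase, hbase]
  have zz : ∀ x : Fin (n + 1) → k, qf M x = 0 → bf M x x = 0 := fun x hx => by
    rw [bf_self, hx, mul_zero]
  have Bp : bf M (fun i => ι (p i)) y = -(r * t) := by
    rw [hB, zz p qp, ppθ, ppp', ppθ', ppu]
    simp only [map_zero, map_one]
    ring
  have Bθ : bf M (fun i => ι (θ i)) y = r := by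
    rw [hB, bf_symm M θ p, ppθ, zz θ qθ, pθp', pθθ', pθu]
    simp only [map_zero, map_one]
    ring
  have Bp' : bf M (fun i => ι (p' i)) y = 1 := by
    rw [hB, bf_symm M p' p, ppp', bf_symm M p' θ, pθp', zz p' qp', pp'θ', pp'u]
    simp only [map_zero, map_one]
    ring
  have Bθ' : bf M (fun i => ι (θ' i)) y = t - r * m ^ 2 := by
    rw [hB, bf_symm M θ' p, ppθ', bf_symm M θ' θ, pθθ', bf_symm M θ' p', pp'θ', zz θ' qθ', pθ'u]
    simp only [map_zero, map_one]
    ring
  have Bu : bf M (fun i => ι (u i)) y = 2 * (r * m) := by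
    rw [hB, bf_symm M u p, ppu, bf_symm M u θ, pθu, bf_symm M u p', pp'u, bf_symm M u θ', pθ'u,
      bf_self, qu]
    simp only [map_zero, mul_one, map_ofNat]
    ring
  have h2' : (2 : KK k) ≠ 0 := by
    intro h
    apply h2
    apply (algebraMap k (KK k)).injective
    rw [map_ofNat, map_zero]
    exact h
  have hqy : qf M y = 0 := by
    have h1 : bf M y y = 0 := by
      have hB2 : ∀ v : Fin (n + 1) → KK k, bf M v y = bf M v (fun i => ι (p i)) +
          (t - r * m ^ 2) * bf M v (fun i => ι (θ i)) + (-(r * t)) * bf M v (fun i => ι (p' i)) +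
          r * bf M v (fun i => ι (θ' i)) + (r * m) * bf M v (fun i => ι (u i)) := by
        intro v
        rw [hyc, bf_add, bf_add, bf_add, bf_add]
      rw [hB2 y, bf_symm M y, bf_symm M y, bf_symm M y, bf_symm M y, bf_symm M y, Bp, Bθ, Bp', Bθ',
        Bu]
      ring
    rw [bf_self] at h1
    exact (mul_eq_zero.1 h1).resolve_left h2'
  -- a nonzero coordinate
  obtain ⟨i, hi⟩ : ∃ i, y i ≠ 0 := by
    by_contra hc
    push Not at hc
    have h0 : bf M (fun i => ι (p' i)) y = 0 := by
      have : y = fun _ => 0 := funext hc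
      rw [this]
      simp [bf]
    rw [Bp'] at h0
    exact one_ne_zero h0
  refine ⟨y, w, by rw [aeval_qf hM]; exact hqy, hw, i, hi, ?_⟩
  set A : IntermediateField k (KK k) :=
    IntermediateField.adjoin k (Set.range (fun j => y j / y i) ∪ {w / y i ^ 2}) with hA
  have hyA' : ∀ j, y j / y i ∈ A := fun j =>
    IntermediateField.subset_adjoin k _ (Or.inl ⟨j, rfl⟩)
  have hwA' : w / y i ^ 2 ∈ A := IntermediateField.subset_adjoin k _ (Or.inr rfl)
  have hinv : (y i)⁻¹ ∈ A := by
    have h1 : bf M (fun i => ι (p' i)) (fun j => (y i)⁻¹ * y j) ∈ A :=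
      bf_mem A M p' _ fun j => by
        rw [mul_comm, ← div_eq_mul_inv]
        exact hyA' j
    rwa [bf_smul, Bp', mul_one] at h1
  have hyi : y i ∈ A := by
    have := inv_mem hinv
    rwa [inv_inv] at this
  have hyA : ∀ j, y j ∈ A := by
    intro j
    have := mul_mem (hyA' j) hyi
    rwa [div_mul_cancel₀ _ hi] at this
  have hwA : w ∈ A := by
    have := mul_mem hwA' (pow_mem hyi 2)
    rwa [div_mul_cancel₀ _ (pow_ne_zero 2 hi)] at this
  have hrA : r ∈ A := by
    rw [← Bθ]
    exact bf_mem A M θ y hyA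
  have htA : t ∈ A := by
    have h1 : -(r * t) ∈ A := by
      rw [← Bp]
      exact bf_mem A M p y hyA
    have h3 := mul_mem (neg_mem h1) (inv_mem hrA)
    have h4 : - -(r * t) * r⁻¹ = t := by field_simp
    rwa [h4] at h3
  have hmA : m ∈ A := by
    have h1 : 2 * (r * m) ∈ A := by
      rw [← Bu]
      exact bf_mem A M u y hyA
    have h5 : (2 : KK k) ∈ A := by
      have := A.algebraMap_mem (2 : k)
      rwa [map_ofNat] at this
    have h3 := mul_mem h1 (inv_mem (mul_mem h5 hrA))
    have h4 : 2 * (r * m) * (2 * r)⁻¹ = m := by field_simp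
    rwa [h4] at h3
  exact hgen A htA hmA hrA hwA

end Pool.Agent.Helper97.DC
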