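import Pool.Agent.Helper97.SD.Main
import Pool.Agent.Helper97.DC.P4
import Pool.Agent.Helper97.DC.Q4

/-!
# Double covers of complete intersections: the cases of coindex at most three
-/

set_option autoImplicit false

namespace Pool.Agent.Helper97.DC

open MvPolynomial Pool.Agent.Helper97.SD

universe u

variable {k : Type u} [Field k] {n r : ℕ}

/-- The double cover of `f_l = 0` branched along `g = 0` is smooth. -/
def SmoothCover (f : Fin r → MvPolynomial (Fin (n + 1)) k) (g : MvPolynomial (Fin (n + 1)) k) : Prop :=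
  ∀ x : Fin (n + 1) → k, x ≠ 0 → (∀ l, aeval x (f l) = 0) →
    LinearIndependent k (fun l => fun i => aeval x (pderiv i (f l))) ∧
    (aeval x g = 0 → LinearIndependent k
      (Fin.snoc (fun l => fun i => aeval x (pderiv i (f l))) (fun i => aeval x (pderiv i g)) :
        Fin (r + 1) → Fin (n + 1) → k))

theorem main [IsAlgClosed k] (h6 : (6 : k) ≠ 0) {m : ℕ} (hm : 2 ≤ m)
    (f : Fin r → MvPolynomial (Fin (n + 1)) k) (d : Fin r → ℕ) (hd : ∀ l, 2 ≤ d l)
    (hf : ∀ l, (f l).IsHomogeneous (d l)) (hdim : r + m + 1 ≤ n)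
    (hco : ∑ l, (d l - 1) + m ≤ 3) {g : MvPolynomial (Fin (n + 1)) k}
    (hg : g.IsHomogeneous (2 * m)) (hS : SmoothCover f g) :
    ∃ (y : Fin (n + 1) → KK k) (w : KK k), (∀ l, aeval y (f l) = 0) ∧ w ^ 2 = aeval y g ∧
      ∃ i, y i ≠ 0 ∧
      IntermediateField.adjoin k (Set.range (fun j => y j / y i) ∪ {w / y i ^ m}) = ⊤ := by
  have hr : r ≤ ∑ l, (d l - 1) := by
    have h1 : ∑ _l : Fin r, 1 ≤ ∑ l, (d l - 1) :=
      Finset.sum_le_sum fun l _ => by have := hd l; omega
    simpa using h1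
  have hcases : (r = 0 ∧ m = 2) ∨ (r = 0 ∧ m = 3) ∨ (r = 1 ∧ m = 2) := by omega
  rcases hcases with ⟨rfl, rfl⟩ | ⟨rfl, rfl⟩ | ⟨rfl, rfl⟩
  · -- quartic branch locus in projective space
    obtain ⟨y, w, hw, i, hi, htop⟩ := p4 h6 (by omega) hg (by
      intro x hx hgx
      have h1 := (hS x hx (fun l => l.elim0)).2 hgx
      have h2 := h1.ne_zero (Fin.last 0)
      rw [Fin.snoc_last] at h2
      obtain ⟨i, hi⟩ := Function.ne_iff.1 h2
      exact ⟨i, hi⟩)
    exact ⟨y, w, fun l => l.elim0, hw, i, hi, htop⟩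
  · -- sextic branch locus in projective space
    obtain ⟨y, w, hw, i, hi, htop⟩ := SD.main h6 (by omega) hg (by
      intro x hx hgx
      have h1 := (hS x hx (fun l => l.elim0)).2 hgx
      have h2 := h1.ne_zero (Fin.last 0)
      rw [Fin.snoc_last] at h2
      obtain ⟨i, hi⟩ := Function.ne_iff.1 h2
      exact ⟨i, hi⟩)
    exact ⟨y, w, fun l => l.elim0, hw, i, hi, htop⟩
  · -- quartic sections of quadrics
    have hd0 : d 0 = 2 := by
      have h1 := hd 0
      rw [Fin.sum_univ_one] at hco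
      omega
    have hf0 : (f 0).IsHomogeneous 2 := hd0 ▸ hf 0
    obtain ⟨y, w, hq, hw, i, hi, htop⟩ := q4 h6 (by omega) hf0 hg (by
      intro x hx hqx
      have h1 := (hS x hx (fun l => by rw [Subsingleton.elim l 0]; exact hqx)).1
      have h2 := h1.ne_zero 0
      obtain ⟨i, hi⟩ := Function.ne_iff.1 h2
      exact ⟨i, hi⟩) (by
      intro x hx hqx hgx
      have h1 := (hS x hx (fun l => by rw [Subsingleton.elim l 0]; exact hqx)).2 hgx
      have e : (Fin.snoc (fun l : Fin 1 => fun i => aeval x (pderiv i (f l)))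
          (fun i => aeval x (pderiv i g)) : Fin (1 + 1) → Fin (n + 1) → k) =
          ![fun i => aeval x (pderiv i (f 0)), fun i => aeval x (pderiv i g)] := by
        funext j
        fin_cases j <;> rfl
      rw [e] at h1
      exact h1)
    exact ⟨y, w, fun l => by rw [Subsingleton.elim l 0]; exact hq, hw, i, hi, htop⟩

end Pool.Agent.Helper97.DC
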